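import Pool.Agent.Results.MP_cadcf7_co.LightFaces

/-!
# The least coefficient of `e_{5,5}` is `7/3`

For plane graphs of minimum degree `5` the least `a` with `a e_{5,5} + e_{5,6} ≥ 60` is `7/3`.

Lower bound: a plane triangulation with 25 vertices, `e_{5,5} = 24` and `e_{5,6} = 4`.

Upper bound. By Euler's formula, `60 - 2 e_{5,5} - e_{5,6}` is at most `2 A + B` minus ten times
the sum of `len - 3` over the faces, where `A` and `B` are the numbers of the vertices of
degree `7` with seven and with exactly six neighbours of degree `5`. So one needs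
`4 e_{5,5} + ∑ 120 (len - 3) ≥ 24 A + 12 B`. A vertex of degree `5` has `2` units for each
neighbour of degree `5` and `30` for each corner in a large face. It gives `T` to the neighbours of
type A and B (clean: all their faces are triangles). Each B gets `12`, each A gets at least `24`
except if the labels of the seven opposite vertices are `B B 5 r 5 r' 5` with `r, r'` of type A or
B; then it gets `22`, and `2` more are paid by the other common neighbour `v` of the two vertices of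
type B, or by one of the neighbours of `v`: the vertex `v` can pay unless it is clean and its
neighbour `t` opposite to the pair is rich, and in this case one of the two other neighbours of `v`
has a large face (`Work.struct0`).
-/

set_option autoImplicit false

namespace Pool.Agent.Results.MP_f6d334_co.LightEdges

open Finset Function
open Pool.Agent.Results.MP_cadcf7_co.LightFaces
open PlaneGraph

namespace Work

variable {G : PlaneGraph}

/-! ### Clean vertices, labels -/

/-- All faces at the origin of `d` are triangles. -/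
def clean (d : G.D) : Prop := ∀ d', G.σ.SameCycle d d' → G.len d' = 3

lemma sc_s (d : G.D) : G.σ.SameCycle d (G.σ d) :=
  Equiv.Perm.sameCycle_apply_right.2 (Equiv.Perm.SameCycle.refl _ _)

lemma clean_congr {d d' : G.D} (h : G.σ.SameCycle d d') : clean d ↔ clean d' :=
  ⟨fun hc e he => hc e (h.trans he), fun hc e he => hc e (h.symm.trans he)⟩

lemma clean.len {d : G.D} (h : clean d) : G.len d = 3 := h d (Equiv.Perm.SameCycle.refl _ _)

lemma clean.s {d : G.D} (h : clean d) : clean (G.σ d) := (clean_congr (sc_s d)).1 h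

lemma clean.of_s {d : G.D} (h : clean (G.σ d)) : clean d := (clean_congr (sc_s d)).2 h

lemma sc_iter (d : G.D) (k : ℕ) : G.σ.SameCycle d (G.σ^[k] d) := by
  induction k with
  | zero => exact Equiv.Perm.SameCycle.refl _ _
  | succ k ih => rw [Function.iterate_succ_apply']; exact ih.trans (sc_s _)

lemma deg_congr {d d' : G.D} (h : G.σ.SameCycle d d') : G.deg d = G.deg d' := by
  unfold deg
  rw [orbit_eq_iff.2 h]

/-- Type A: a vertex of degree `7` with triangular faces and all seven neighbours of degree `5`. -/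
def isA (d : G.D) : Prop := G.deg d = 7 ∧ clean d ∧ ∀ d', G.σ.SameCycle d d' → x d' = 5

/-- Type B: a vertex of degree `7` with triangular faces and exactly six neighbours of degree
`5`. -/
def isB (d : G.D) : Prop := G.deg d = 7 ∧ clean d ∧
  ∃ d0, G.σ.SameCycle d d0 ∧ ∀ d', G.σ.SameCycle d d' → (x d' = 5 ↔ d' ≠ d0)

lemma isA_congr {d d' : G.D} (h : G.σ.SameCycle d d') : isA d ↔ isA d' := by
  unfold isA
  rw [deg_congr h, clean_congr h]
  constructor
  · rintro ⟨h1, h2, h3⟩
    exact ⟨h1, h2, fun e he => h3 e (h.trans he)⟩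
  · rintro ⟨h1, h2, h3⟩
    exact ⟨h1, h2, fun e he => h3 e (h.symm.trans he)⟩

lemma isB_congr {d d' : G.D} (h : G.σ.SameCycle d d') : isB d ↔ isB d' := by
  unfold isB
  rw [deg_congr h, clean_congr h]
  constructor
  · rintro ⟨h1, h2, d0, h3, h4⟩
    exact ⟨h1, h2, d0, h.symm.trans h3, fun e he => h4 e (h.trans he)⟩
  · rintro ⟨h1, h2, d0, h3, h4⟩
    exact ⟨h1, h2, d0, h.trans h3, fun e he => h4 e (h.symm.trans he)⟩

open Classical in
/-- The label of the origin of `d`: `0` for degree `5`, `1` and `2` for the two rich types, `3`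
for the rest. -/
noncomputable def lab (d : G.D) : Fin 4 :=
  if G.deg d = 5 then 0 else if isA d then 1 else if isB d then 2 else 3

lemma lab_congr {d d' : G.D} (h : G.σ.SameCycle d d') : lab d = lab d' := by
  unfold lab
  rw [deg_congr h, isA_congr h, isB_congr h]

lemma lab_s (d : G.D) : lab (G.σ d) = lab d := (lab_congr (sc_s d)).symm

lemma lab_zero {d : G.D} : lab d = 0 ↔ G.deg d = 5 := by
  unfold lab
  split_ifs with h1 h2 h3 <;> simp_all

lemma lab_one {d : G.D} : lab d = 1 ↔ isA d := by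
  unfold lab
  split_ifs with h1 h2 h3
  · constructor
    · intro h
      exact absurd h (by decide)
    · intro h
      have := h.1
      omega
  · simp [h2]
  · constructor
    · intro h
      exact absurd h (by decide)
    · intro h
      exact absurd h h2
  · constructor
    · intro h
      exact absurd h (by decide)
    · intro h
      exact absurd h h2

lemma isA_not_isB {d : G.D} (h : isA d) : ¬ isB d := by
  rintro ⟨-, -, d0, h3, h4⟩
  exact ((h4 d0 h3).1 (h.2.2 d0 h3)) rfl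

lemma lab_two {d : G.D} : lab d = 2 ↔ isB d := by
  unfold lab
  split_ifs with h1 h2 h3
  · constructor
    · intro h
      exact absurd h (by decide)
    · intro h
      have := h.1
      omega
  · constructor
    · intro h
      exact absurd h (by decide)
    · intro h
      exact absurd h (isA_not_isB h2)
  · simp [h3]
  · constructor
    · intro h
      exact absurd h (by decide)
    · intro h
      exact absurd h h3

/-- Rich vertices. -/
def rich (d : G.D) : Prop := lab d = 1 ∨ lab d = 2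

lemma rich.deg {d : G.D} (h : rich d) : G.deg d = 7 := by
  rcases h with h | h
  · exact (lab_one.1 h).1
  · exact (lab_two.1 h).1

lemma rich.clean {d : G.D} (h : rich d) : clean d := by
  rcases h with h | h
  · exact (lab_one.1 h).2.1
  · exact (lab_two.1 h).2.1

lemma rich_congr {d d' : G.D} (h : G.σ.SameCycle d d') : rich d ↔ rich d' := by
  unfold rich
  rw [lab_congr h]

lemma rich.s {d : G.D} (h : rich d) : rich (G.σ d) := (rich_congr (sc_s d)).1 h

lemma rich.uniq {d d1 d2 : G.D} (h : rich d) (h1 : G.σ.SameCycle d d1)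
    (h2 : G.σ.SameCycle d d2) (n1 : x d1 ≠ 5) (n2 : x d2 ≠ 5) : d1 = d2 := by
  rcases h with h | h
  · exact absurd ((lab_one.1 h).2.2 d1 h1) n1
  · obtain ⟨-, -, d0, -, h4⟩ := lab_two.1 h
    have e1 : d1 = d0 := by
      by_contra hc
      exact n1 ((h4 d1 h1).2 hc)
    have e2 : d2 = d0 := by
      by_contra hc
      exact n2 ((h4 d2 h2).2 hc)
    rw [e1, e2]

lemma iter_ne {d : G.D} {k : ℕ} (h0 : 0 < k) (h : k < G.deg d) : G.σ^[k] d ≠ d := by
  intro hk
  have h1 : IsPeriodicPt G.σ k d := hk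
  have h2 := h1.minimalPeriod_le h0
  unfold deg at h
  rw [orbit_card] at h
  omega

lemma five {d : G.D} (h : G.deg d = 5) : G.σ (G.σ (G.σ (G.σ (G.σ d)))) = d := by
  have := sigma_iter_deg d
  rwa [h] at this

lemma seven {d : G.D} (h : G.deg d = 7) :
    G.σ (G.σ (G.σ (G.σ (G.σ (G.σ (G.σ d)))))) = d := by
  have := sigma_iter_deg d
  rwa [h] at this

/-- Triangles. -/
lemma tri {a : G.D} (h : G.len (G.σ a) = 3) :
    G.σ (G.α (G.σ (G.α (G.σ a)))) = G.α a := by
  have h1 := alpha_phi_phi h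
  rw [Equiv.symm_apply_apply] at h1
  exact h1

lemma len_s_alpha (d : G.D) : G.len (G.σ (G.α d)) = G.len d := len_phi d

lemma x_congr_s {d d' : G.D} (h : G.σ.SameCycle (G.α d) (G.α d')) : x d = x d' := deg_congr h

/-- The heads of the darts next to `e`, seen from the head of `e`. -/
lemma heads {e : G.D} (h : clean (G.α e)) :
    x (G.σ e) = x (G.σ.symm (G.α e)) ∧ x (G.σ.symm e) = x (G.σ (G.α e)) := by
  constructor
  · have h1 : G.len (G.σ e) = 3 := by
      have h2 := len_s_alpha (G.α e)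
      rw [G.alpha_alpha] at h2
      rw [h2]
      exact h.len
    have h3 := tri h1
    have h4 : G.σ.symm (G.α e) = G.α (G.σ (G.α (G.σ e))) := by
      rw [← h3, Equiv.symm_apply_apply]
    rw [h4]
    unfold x
    rw [G.alpha_alpha, deg_sigma]
  · have h1 : G.len (G.σ (G.σ.symm e)) = 3 := by
      rw [Equiv.apply_symm_apply, ← len_s_alpha e]
      exact h.s.len
    have h3 := tri h1
    rw [Equiv.apply_symm_apply] at h3
    unfold x
    rw [← h3, deg_sigma]

/-- The label of the head. -/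
noncomputable def hl (d : G.D) : Fin 4 := lab (G.α d)

lemma hl_zero {d : G.D} : hl d = 0 ↔ x d = 5 := lab_zero

/-- The constraint at a neighbour with the label `c`, the next ones having the labels `p, q`. -/
def cn (p c q : Fin 4) : Bool :=
  (c != 1 || (p == 0 && q == 0)) && (c != 2 || (p == 0 || q == 0))

lemma cn_iff {p c q : Fin 4} : cn p c q = true ↔ (c = 1 → p = 0 ∧ q = 0) ∧
    (c = 2 → p = 0 ∨ q = 0) := by
  revert p c q
  decide

lemma con (e : G.D) : cn (hl (G.σ.symm e)) (hl e) (hl (G.σ e)) = true := by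
  rw [cn_iff]
  constructor
  · intro h
    have hA := lab_one.1 h
    have hh := heads hA.2.1
    rw [hl_zero, hl_zero, hh.1, hh.2]
    constructor
    · exact hA.2.2 _ (sc_s _)
    · refine hA.2.2 _ ?_
      exact (Equiv.Perm.sameCycle_symm_apply_right.2 (Equiv.Perm.SameCycle.refl _ _))
  · intro h
    have hR : rich (G.α e) := Or.inr h
    have hh := heads hR.clean
    rw [hl_zero, hl_zero, hh.1, hh.2]
    by_contra hcon
    push Not at hcon
    have h3 := hR.uniq (sc_s _)
      (Equiv.Perm.sameCycle_symm_apply_right.2 (Equiv.Perm.SameCycle.refl _ _)) hcon.1 hcon.2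
    have h4 : G.σ^[2] (G.α e) = G.α e := by
      show G.σ (G.σ (G.α e)) = G.α e
      rw [h3, Equiv.apply_symm_apply]
    exact iter_ne (by norm_num) (by rw [hR.deg]; norm_num) h4

/-! ### Amounts -/

/-- What a clean vertex of degree `5` gives to a vertex of type A, its two opposite neighbours
having the labels `p, q`. -/
def tau (p q : Fin 4) : ℕ :=
  if (p = 1 ∨ p = 2) ∧ (q = 1 ∨ q = 2) then 4
  else if p = 1 ∨ p = 2 then (if q = 0 then 3 else 4)
  else if q = 1 ∨ q = 2 then (if p = 0 then 3 else 4)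
  else 4 + (if p = 0 then 2 else 0) + (if q = 0 then 2 else 0)

def tc (a b c d e : Fin 4) : ℕ :=
  if a = 2 then (if b = 0 ∧ e = 0 then 3 else 0) else if a = 1 then tau c d else 0

def tu (a : Fin 4) : ℕ := if a = 1 then 6 else if a = 2 then 3 else 0

def rvc (a c d : Fin 4) : ℕ := if c = 2 ∧ d = 2 ∧ ¬ (a = 1 ∨ a = 2) then 1 else 0

def rvu (c d : Fin 4) : ℕ := if c = 2 ∧ d = 2 then 1 else 0

def z5 (a : Fin 4) : ℕ := if a = 0 then 1 else 0

def b2 (a : Fin 4) : ℕ := if a = 2 then 1 else 0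

set_option maxRecDepth 100000 in
lemma I5c : ∀ a b c d e : Fin 4, cn e a b = true → cn a b c = true → cn b c d = true →
    cn c d e = true → cn d e a = true →
    (tc a b c d e + 2 * rvc a c d) + (tc b c d e a + 2 * rvc b d e) +
    (tc c d e a b + 2 * rvc c e a) + (tc d e a b c + 2 * rvc d a b) +
    (tc e a b c d + 2 * rvc e b c) ≤ 2 * (z5 a + z5 b + z5 c + z5 d + z5 e) := by
  decide +kernel

set_option maxRecDepth 100000 in
lemma I5u : ∀ a b c d e : Fin 4, cn e a b = true → cn a b c = true → cn b c d = true →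
    cn c d e = true → cn d e a = true →
    (tu a + 2 * rvu c d + 4 * b2 a) + (tu b + 2 * rvu d e + 4 * b2 b) +
    (tu c + 2 * rvu e a + 4 * b2 c) + (tu d + 2 * rvu a b + 4 * b2 d) +
    (tu e + 2 * rvu b c + 4 * b2 e) ≤ 30 := by
  decide +kernel

/-- The bad sequences. -/
def bd (a b c d e f g : Fin 4) : ℕ :=
  if a = 2 ∧ b = 2 ∧ c = 0 ∧ (d = 1 ∨ d = 2) ∧ e = 0 ∧ (f = 1 ∨ f = 2) ∧ g = 0 then 1 else 0

set_option maxRecDepth 1000000 in
lemma IAc : ∀ a b c d e f g : Fin 4, cn g a b = true → cn a b c = true → cn b c d = true →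
    cn c d e = true → cn d e f = true → cn e f g = true → cn f g a = true →
    24 ≤ (tau g a + 2 * bd g a b c d e f) + (tau a b + 2 * bd a b c d e f g) +
      (tau b c + 2 * bd b c d e f g a) + (tau c d + 2 * bd c d e f g a b) +
      (tau d e + 2 * bd d e f g a b c) + (tau e f + 2 * bd e f g a b c d) +
      (tau f g + 2 * bd f g a b c d e) := by
  decide +kernel

end Work

namespace Work

variable {G : PlaneGraph}

open Classical in
/-- The amount given along the dart `d` from a vertex of degree `5` to a rich vertex. -/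
noncomputable def T (d : G.D) : ℕ :=
  if G.deg d = 5 then
    (if clean d then tc (hl d) (hl (G.σ d)) (hl (G.σ (G.σ d))) (hl (G.σ (G.σ (G.σ d))))
      (hl (G.σ.symm d)) else tu (hl d))
  else 0

open Classical in
/-- The extra amount paid for the dart `d`. -/
noncomputable def rv (d : G.D) : ℕ :=
  if G.deg d = 5 then
    (if clean d then rvc (hl d) (hl (G.σ (G.σ d))) (hl (G.σ (G.σ (G.σ d))))
      else rvu (hl (G.σ (G.σ d))) (hl (G.σ (G.σ (G.σ d)))))
  else 0

open Classical in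
/-- The extra amount paid for the dart `d` by a vertex with a large face. -/
noncomputable def ru (d : G.D) : ℕ := if G.deg d = 5 ∧ ¬ clean d then b2 (hl d) else 0

/-- The dart `d` has a head of degree `5`. -/
noncomputable def f5 (d : G.D) : ℕ := z5 (hl d)

/-- A corner in a large face. -/
noncomputable def big (d : G.D) : ℕ := if G.len d = 3 then 0 else 30

lemma big_sum {d : G.D} {k : ℕ} (hk : G.deg d = k) (h : ¬ clean d) :
    30 ≤ ∑ i ∈ Finset.range k, big (G.σ^[i] d) := by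
  unfold clean at h
  push Not at h
  obtain ⟨d', h1, h2⟩ := h
  obtain ⟨n, hn⟩ := h1.exists_nat_pow_eq
  have hk' : minimalPeriod G.σ d = k := by
    rw [← hk]
    unfold deg
    rw [orbit_card]
  have hpos : 0 < k := by
    rw [← hk]
    exact orbit_card_pos _ _
  have h3 : G.σ^[n % k] d = d' := by
    rw [← hk', iterate_mod_minimalPeriod_eq, Equiv.Perm.iterate_eq_pow]
    exact hn
  have h4 : big (G.σ^[n % k] d) = 30 := by
    rw [h3]
    unfold big
    rw [if_neg h2]
  rw [← h4]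
  exact Finset.single_le_sum (f := fun i => big (G.σ^[i] d)) (fun i _ => Nat.zero_le _)
    (Finset.mem_range.2 (Nat.mod_lt _ hpos))

lemma range5 (g : G.D → ℕ) (d : G.D) : ∑ i ∈ Finset.range 5, g (G.σ^[i] d) =
    g d + g (G.σ d) + g (G.σ (G.σ d)) + g (G.σ (G.σ (G.σ d))) + g (G.σ (G.σ (G.σ (G.σ d)))) := by
  simp only [Finset.sum_range_succ, Finset.sum_range_zero, zero_add]
  rfl

lemma range7 (g : G.D → ℕ) (d : G.D) : ∑ i ∈ Finset.range 7, g (G.σ^[i] d) =
    g d + g (G.σ d) + g (G.σ (G.σ d)) + g (G.σ (G.σ (G.σ d))) + g (G.σ (G.σ (G.σ (G.σ d)))) +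
    g (G.σ (G.σ (G.σ (G.σ (G.σ d))))) + g (G.σ (G.σ (G.σ (G.σ (G.σ (G.σ d)))))) := by
  simp only [Finset.sum_range_succ, Finset.sum_range_zero, zero_add]
  rfl

/-- The balance of a vertex of degree `5`. -/
lemma bal5 {d : G.D} (h : G.deg d = 5) :
    ∑ i ∈ Finset.range 5, (T (G.σ^[i] d) + 2 * rv (G.σ^[i] d) + 4 * ru (G.σ^[i] d)) ≤
      ∑ i ∈ Finset.range 5, (2 * f5 (G.σ^[i] d) + big (G.σ^[i] d)) := by
  have hd1 : G.deg (G.σ d) = 5 := by rw [deg_sigma, h]
  have hd2 : G.deg (G.σ (G.σ d)) = 5 := by rw [deg_sigma, hd1]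
  have hd3 : G.deg (G.σ (G.σ (G.σ d))) = 5 := by rw [deg_sigma, hd2]
  have hd4 : G.deg (G.σ (G.σ (G.σ (G.σ d)))) = 5 := by rw [deg_sigma, hd3]
  have h5 := five h
  have hs : G.σ.symm d = G.σ (G.σ (G.σ (G.σ d))) := by
    rw [Equiv.symm_apply_eq, h5]
  have c0 := con d
  have c1 := con (G.σ d)
  have c2 := con (G.σ (G.σ d))
  have c3 := con (G.σ (G.σ (G.σ d)))
  have c4 := con (G.σ (G.σ (G.σ (G.σ d))))
  rw [hs] at c0
  rw [Equiv.symm_apply_apply] at c1 c2 c3 c4
  rw [h5] at c4
  by_cases hc : clean d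
  · have key := I5c (hl d) (hl (G.σ d)) (hl (G.σ (G.σ d))) (hl (G.σ (G.σ (G.σ d))))
      (hl (G.σ (G.σ (G.σ (G.σ d))))) c0 c1 c2 c3 c4
    have hb : 0 ≤ ∑ i ∈ Finset.range 5, big (G.σ^[i] d) := Nat.zero_le _
    rw [Finset.sum_add_distrib (f := fun i => 2 * f5 (G.σ^[i] d))]
    rw [range5 (fun e => T e + 2 * rv e + 4 * ru e) d, range5 (fun e => 2 * f5 e) d]
    unfold T rv ru f5
    simp only [Equiv.symm_apply_apply, h, hd1, hd2, hd3, hd4, if_true, hc, hc.s, hc.s.s, hc.s.s.s,
      hc.s.s.s.s, not_true, and_false, if_false, mul_zero, add_zero, h5, hs]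
    omega
  · have hc1 : ¬ clean (G.σ d) := fun h' => hc h'.of_s
    have hc2 : ¬ clean (G.σ (G.σ d)) := fun h' => hc1 h'.of_s
    have hc3 : ¬ clean (G.σ (G.σ (G.σ d))) := fun h' => hc2 h'.of_s
    have hc4 : ¬ clean (G.σ (G.σ (G.σ (G.σ d)))) := fun h' => hc3 h'.of_s
    have key := I5u (hl d) (hl (G.σ d)) (hl (G.σ (G.σ d))) (hl (G.σ (G.σ (G.σ d))))
      (hl (G.σ (G.σ (G.σ (G.σ d))))) c0 c1 c2 c3 c4
    have hb := big_sum h hc
    rw [Finset.sum_add_distrib (f := fun i => 2 * f5 (G.σ^[i] d))]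
    rw [range5 (fun e => T e + 2 * rv e + 4 * ru e) d]
    unfold T rv ru
    simp only [h, hd1, hd2, hd3, hd4, if_true, hc, hc1, hc2, hc3,
      hc4, not_false_iff, and_true, if_false, h5]
    omega

/-! ### Around a vertex of type A -/

/-- The dart from the vertex opposite to the edge `x y` to the previous one. -/
def R (d : G.D) : G.D := G.σ (G.α (G.σ (G.σ (G.σ (G.α d)))))

lemma R1 {d : G.D} (h : clean (G.α d)) :
    G.σ (G.α (R d)) = G.α (G.σ (G.σ (G.α d))) := tri h.s.s.s.len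

lemma R2 {d : G.D} (h : G.len (G.σ d) = 3) (h5 : x d = 5) (hc : clean (G.α d)) :
    G.σ (G.α (G.σ (G.σ (G.α (G.σ d))))) = G.α (G.σ (G.σ (G.σ (G.α d)))) := by
  have h1 := tri h
  have h2 := five h5
  have h3 : G.α (G.σ (G.α (G.σ d))) = G.σ (G.σ (G.σ (G.σ (G.α d)))) := by
    apply G.σ.injective
    rw [h1, h2]
  have h3' : G.σ (G.α (G.σ d)) = G.α (G.σ (G.σ (G.σ (G.σ (G.α d))))) := by
    rw [← h3, G.alpha_alpha]
  have h4 := tri (a := G.σ (G.σ (G.σ (G.α d)))) hc.s.s.s.s.len
  rw [h3']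
  exact h4

lemma R3 {d : G.D} (h : G.len (G.σ d) = 3) (h5 : x d = 5) (hc : clean (G.α d))
    (hc' : clean (G.α (G.σ d))) :
    G.σ (G.σ (G.σ (G.α (R (G.σ d))))) = R d := by
  rw [R1 hc', R2 h h5 hc]
  rfl

/-- The label of the vertex opposite to the edge `x y`. -/
noncomputable def L (d : G.D) : Fin 4 := lab (R d)

lemma L_eq (d : G.D) : hl (G.σ (G.σ (G.σ (G.α d)))) = L d := (lab_s _).symm

lemma L_prev {d : G.D} (h : G.len (G.σ d) = 3) (h5 : x d = 5) (hc : clean (G.α d))
    (hc' : clean (G.α (G.σ d))) : hl (R (G.σ d)) = L d := by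
  unfold L hl
  rw [← R3 h h5 hc hc', lab_s, lab_s, lab_s]

lemma hl_R {d : G.D} (h : clean (G.α d)) : hl (R d) = hl (G.σ (G.σ (G.α d))) := by
  unfold hl
  rw [← R1 h, lab_s]

lemma L_prev' {d : G.D} (h : G.len (G.σ d) = 3) (h5 : x d = 5) (hc : clean (G.α d))
    (hc' : clean (G.α (G.σ d))) : hl (G.σ (G.σ (G.α (G.σ d)))) = L d := by
  rw [← hl_R hc', L_prev h h5 hc hc']

/-- The constraint for the opposite vertices. -/
lemma L_con {d : G.D} (h : clean d) (h1 : x d = 5) (h2 : x (G.σ d) = 5)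
    (c1 : clean (G.α d)) (c2 : clean (G.α (G.σ d))) (c3 : clean (G.α (G.σ (G.σ d)))) :
    cn (L d) (L (G.σ d)) (L (G.σ (G.σ d))) = true := by
  have e1 : hl (R (G.σ d)) = L d := L_prev h.s.len h1 c1 c2
  have e2 : G.σ (G.σ (G.σ (G.α (R (G.σ (G.σ d)))))) = R (G.σ d) := R3 h.s.s.len h2 c2 c3
  have e3 : hl (G.α (R (G.σ (G.σ d)))) = L (G.σ (G.σ d)) := by
    unfold hl L
    rw [G.alpha_alpha]
  have hsc : G.σ.SameCycle (R (G.σ d)) (G.α (R (G.σ (G.σ d)))) := by
    rw [← e2]
    exact (((sc_s _).trans (sc_s _)).trans (sc_s _)).symm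
  rw [cn_iff]
  constructor
  · intro hA
    have hA' := lab_one.1 hA
    rw [← e1, ← e3, hl_zero, hl_zero]
    exact ⟨hA'.2.2 _ (Equiv.Perm.SameCycle.refl _ _), hA'.2.2 _ hsc⟩
  · intro hB
    have hR : rich (R (G.σ d)) := Or.inr hB
    rw [← e1, ← e3, hl_zero, hl_zero]
    by_contra hcon
    push Not at hcon
    have h4 := hR.uniq (Equiv.Perm.SameCycle.refl _ _) hsc hcon.1 hcon.2
    rw [← h4] at e2
    have h5 : G.σ^[3] (R (G.σ d)) = R (G.σ d) := e2
    exact iter_ne (by norm_num) (by rw [hR.deg]; norm_num) h5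

open Classical in
/-- The bad darts. -/
noncomputable def bad (d : G.D) : ℕ :=
  if (isA d ∧ ∀ d', G.σ.SameCycle d d' → clean (G.α d')) then
    bd (L (G.σ.symm d)) (L d) (L (G.σ d)) (L (G.σ (G.σ d))) (L (G.σ (G.σ (G.σ d))))
      (L (G.σ (G.σ (G.σ (G.σ d))))) (L (G.σ (G.σ (G.σ (G.σ (G.σ d))))))
  else 0

lemma T_A {d : G.D} (h : isA d) (hc : clean (G.α d)) :
    T (G.α d) = tau (hl (G.σ (G.σ (G.α d)))) (hl (G.σ (G.σ (G.σ (G.α d))))) := by
  have h5 : G.deg (G.α d) = 5 := h.2.2 d (Equiv.Perm.SameCycle.refl _ _)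
  have h1 : hl (G.α d) = 1 := by
    unfold hl
    rw [G.alpha_alpha]
    exact lab_one.2 h
  unfold T
  rw [if_pos h5, if_pos hc, h1]
  unfold tc
  rw [if_neg (by decide), if_pos rfl]

lemma T_A' {d : G.D} (h : isA d) (hc : ¬ clean (G.α d)) : T (G.α d) = 6 := by
  have h5 : G.deg (G.α d) = 5 := h.2.2 d (Equiv.Perm.SameCycle.refl _ _)
  have h1 : hl (G.α d) = 1 := by
    unfold hl
    rw [G.alpha_alpha]
    exact lab_one.2 h
  unfold T
  rw [if_pos h5, if_neg hc, h1]
  rfl

lemma tau_ge (p q : Fin 4) : 3 ≤ tau p q := by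
  revert p q
  decide

lemma T_A_ge {d : G.D} (h : isA d) : 3 ≤ T (G.α d) := by
  by_cases hc : clean (G.α d)
  · rw [T_A h hc]
    exact tau_ge _ _
  · rw [T_A' h hc]
    norm_num

/-- The balance of a vertex of type A. -/
lemma balA {d : G.D} (h : isA d) :
    24 ≤ ∑ i ∈ Finset.range 7, (T (G.α (G.σ^[i] d)) + 2 * bad (G.σ^[i] d)) := by
  have hA : ∀ d', G.σ.SameCycle d d' → isA d' := fun d' h' => (isA_congr h').1 h
  by_cases hc : ∀ d', G.σ.SameCycle d d' → clean (G.α d')
  · rw [range7 (fun e => T (G.α e) + 2 * bad e) d]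
    set d1 := G.σ d with hd1
    set d2 := G.σ d1 with hd2
    set d3 := G.σ d2 with hd3
    set d4 := G.σ d3 with hd4
    set d5 := G.σ d4 with hd5
    set d6 := G.σ d5 with hd6
    have h7 : G.σ d6 = d := seven h.1
    have s1 : G.σ.SameCycle d d1 := sc_s d
    have s2 : G.σ.SameCycle d d2 := s1.trans (sc_s d1)
    have s3 : G.σ.SameCycle d d3 := s2.trans (sc_s d2)
    have s4 : G.σ.SameCycle d d4 := s3.trans (sc_s d3)
    have s5 : G.σ.SameCycle d d5 := s4.trans (sc_s d4)
    have s6 : G.σ.SameCycle d d6 := s5.trans (sc_s d5)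
    have s0 : G.σ.SameCycle d d := Equiv.Perm.SameCycle.refl _ _
    have a0 := hA _ s0
    have a1 := hA _ s1
    have a2 := hA _ s2
    have a3 := hA _ s3
    have a4 := hA _ s4
    have a5 := hA _ s5
    have a6 := hA _ s6
    have x0 := h.2.2 _ s0
    have x1 := h.2.2 _ s1
    have x2 := h.2.2 _ s2
    have x3 := h.2.2 _ s3
    have x4 := h.2.2 _ s4
    have x5 := h.2.2 _ s5
    have x6 := h.2.2 _ s6
    have k0 := hc _ s0
    have k1 := hc _ s1
    have k2 := hc _ s2
    have k3 := hc _ s3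
    have k4 := hc _ s4
    have k5 := hc _ s5
    have k6 := hc _ s6
    have l0 := a0.2.1
    have l1 := a1.2.1
    have l2 := a2.2.1
    have l3 := a3.2.1
    have l4 := a4.2.1
    have l5 := a5.2.1
    have l6 := a6.2.1
    have q0 := L_con l6 x6 (by rw [h7]; exact x0) k6 (by rw [h7]; exact k0)
      (by rw [h7]; exact k1)
    have q1 := L_con l0 x0 x1 k0 k1 k2
    have q2 := L_con l1 x1 x2 k1 k2 k3
    have q3 := L_con l2 x2 x3 k2 k3 k4
    have q4 := L_con l3 x3 x4 k3 k4 k5
    have q5 := L_con l4 x4 x5 k4 k5 k6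
    have q6 := L_con l5 x5 x6 k5 k6 (by rw [h7]; exact k0)
    rw [h7] at q0 q6
    have p1 := L_prev' l1.len x0 k0 k1
    have p2 := L_prev' l2.len x1 k1 k2
    have p3 := L_prev' l3.len x2 k2 k3
    have p4 := L_prev' l4.len x3 k3 k4
    have p5 := L_prev' l5.len x4 k4 k5
    have p6 := L_prev' l6.len x5 k5 k6
    have p0 := L_prev' (d := d6) (by rw [h7]; exact l0.len) x6 k6 (by rw [h7]; exact k0)
    rw [h7] at p0
    have t0 := T_A a0 k0
    have t1 := T_A a1 k1
    have t2 := T_A a2 k2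
    have t3 := T_A a3 k3
    have t4 := T_A a4 k4
    have t5 := T_A a5 k5
    have t6 := T_A a6 k6
    rw [p0, L_eq] at t0
    rw [p1, L_eq] at t1
    rw [p2, L_eq] at t2
    rw [p3, L_eq] at t3
    rw [p4, L_eq] at t4
    rw [p5, L_eq] at t5
    rw [p6, L_eq] at t6
    have key := IAc (L d) (L d1) (L d2) (L d3) (L d4) (L d5) (L d6) q0 q1 q2 q3 q4 q5 q6
    have hbad : ∀ d', G.σ.SameCycle d d' → bad d' =
        bd (L (G.σ.symm d')) (L d') (L (G.σ d')) (L (G.σ (G.σ d'))) (L (G.σ (G.σ (G.σ d'))))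
          (L (G.σ (G.σ (G.σ (G.σ d'))))) (L (G.σ (G.σ (G.σ (G.σ (G.σ d')))))) := by
      intro d' hd'
      unfold bad
      rw [if_pos ⟨hA d' hd', fun e he => hc e (hd'.trans he)⟩]
    have y0 : G.σ.symm d = d6 := by rw [Equiv.symm_apply_eq, h7]
    have y1 : G.σ.symm d1 = d := by rw [Equiv.symm_apply_eq]
    have y2 : G.σ.symm d2 = d1 := by rw [Equiv.symm_apply_eq]
    have y3 : G.σ.symm d3 = d2 := by rw [Equiv.symm_apply_eq]
    have y4 : G.σ.symm d4 = d3 := by rw [Equiv.symm_apply_eq]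
    have y5 : G.σ.symm d5 = d4 := by rw [Equiv.symm_apply_eq]
    have y6 : G.σ.symm d6 = d5 := by rw [Equiv.symm_apply_eq]
    have b0 := hbad _ s0
    have b1 := hbad _ s1
    have b2 := hbad _ s2
    have b3 := hbad _ s3
    have b4 := hbad _ s4
    have b5 := hbad _ s5
    have b6 := hbad _ s6
    rw [y0, ← hd1, ← hd2, ← hd3, ← hd4, ← hd5] at b0
    rw [y1, ← hd2, ← hd3, ← hd4, ← hd5, ← hd6] at b1
    rw [y2, ← hd3, ← hd4, ← hd5, ← hd6, h7] at b2
    rw [y3, ← hd4, ← hd5, ← hd6, h7, ← hd1] at b3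
    rw [y4, ← hd5, ← hd6, h7, ← hd1, ← hd2] at b4
    rw [y5, ← hd6, h7, ← hd1, ← hd2, ← hd3] at b5
    rw [y6, h7, ← hd1, ← hd2, ← hd3, ← hd4] at b6
    show 24 ≤ (T (G.α d) + 2 * bad d) + (T (G.α d1) + 2 * bad d1) + (T (G.α d2) + 2 * bad d2) +
      (T (G.α d3) + 2 * bad d3) + (T (G.α d4) + 2 * bad d4) + (T (G.α d5) + 2 * bad d5) +
      (T (G.α d6) + 2 * bad d6)
    rw [t0, t1, t2, t3, t4, t5, t6, b0, b1, b2, b3, b4, b5, b6]
    exact key
  · push Not at hc
    obtain ⟨d', h1, h2⟩ := hc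
    obtain ⟨n, hn⟩ := h1.exists_nat_pow_eq
    have hk' : minimalPeriod G.σ d = 7 := by
      rw [← h.1]
      unfold deg
      rw [orbit_card]
    have h3 : G.σ^[n % 7] d = d' := by
      rw [← hk', iterate_mod_minimalPeriod_eq, Equiv.Perm.iterate_eq_pow]
      exact hn
    have h4 : T (G.α (G.σ^[n % 7] d)) = 6 := by
      rw [h3]
      exact T_A' (hA _ h1) h2
    have h5 : ∀ i, 3 ≤ T (G.α (G.σ^[i] d)) := fun i => T_A_ge (hA _ (sc_iter d i))
    have h6 : n % 7 < 7 := Nat.mod_lt _ (by norm_num)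
    have h7 : ∑ i ∈ Finset.range 7, (if i = n % 7 then 6 else 3) ≤
        ∑ i ∈ Finset.range 7, (T (G.α (G.σ^[i] d)) + 2 * bad (G.σ^[i] d)) := by
      refine Finset.sum_le_sum fun i _ => ?_
      split_ifs with hi
      · rw [hi, h4]
        omega
      · have := h5 i
        omega
    refine le_trans ?_ h7
    generalize n % 7 = m at h6
    interval_cases m <;> decide

lemma T_B {e : G.D} (h : isB (G.α e)) (h5 : G.deg e = 5) (h1 : x (G.σ e) = 5)
    (h2 : x (G.σ.symm e) = 5) : T e = 3 := by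
  have h3 : hl e = 2 := lab_two.2 h
  unfold T
  rw [if_pos h5, h3]
  split_ifs with hc
  · unfold tc
    rw [if_pos rfl, if_pos ⟨hl_zero.2 h1, hl_zero.2 h2⟩]
  · rfl

lemma rot_sum (g : G.D → ℕ) {d d' : G.D} (h : G.deg d = 7) (hs : G.σ.SameCycle d d') :
    ∑ i ∈ Finset.range 7, g (G.σ^[i] d') = ∑ i ∈ Finset.range 7, g (G.σ^[i] d) := by
  obtain ⟨n, hn⟩ := hs.exists_nat_pow_eq
  rw [← hn]
  clear hn hs
  induction n with
  | zero => rfl
  | succ n ih =>
    rw [← ih, pow_succ', Equiv.Perm.mul_apply, range7, range7]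
    have h7 : G.deg ((G.σ ^ n) d) = 7 := by
      rw [← Equiv.Perm.iterate_eq_pow, deg_iter, h]
    rw [seven h7]
    ring

/-- The balance of a vertex of type B. -/
lemma balB {d : G.D} (h : isB d) :
    12 ≤ ∑ i ∈ Finset.range 7, T (G.α (G.σ^[i] d)) := by
  obtain ⟨h1, h2, d0, h3, h4⟩ := h
  have h : isB d := ⟨h1, h2, d0, h3, h4⟩
  rw [← rot_sum (fun e => T (G.α e)) h1 h3]
  have hdeg : G.deg d0 = 7 := by rw [← deg_congr h3, h1]
  have hx : ∀ k, 0 < k → k < 7 → x (G.σ^[k] d0) = 5 := by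
    intro k hk hk7
    rw [h4 _ (h3.trans (sc_iter d0 k))]
    exact iter_ne hk (by rw [hdeg]; exact hk7)
  have hT : ∀ k, 1 ≤ k → k < 5 → T (G.α (G.σ^[k + 1] d0)) = 3 := by
    intro k hk hk5
    have hB : isB (G.σ^[k + 1] d0) := (isB_congr (h3.trans (sc_iter d0 (k + 1)))).1 h
    have hh := heads (e := G.α (G.σ^[k + 1] d0)) (by rw [G.alpha_alpha]; exact hB.2.1)
    rw [G.alpha_alpha, symm_iter, ← Function.iterate_succ_apply' G.σ (k + 1)] at hh
    refine T_B (by rw [G.alpha_alpha]; exact hB) (hx (k + 1) (by omega) (by omega)) ?_ ?_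
    · rw [hh.1]
      exact hx k (by omega) (by omega)
    · rw [hh.2]
      exact hx (k + 2) (by omega) (by omega)
  have e2 : T (G.α (G.σ^[2] d0)) = 3 := hT 1 (by norm_num) (by norm_num)
  have e3 : T (G.α (G.σ^[3] d0)) = 3 := hT 2 (by norm_num) (by norm_num)
  have e4 : T (G.α (G.σ^[4] d0)) = 3 := hT 3 (by norm_num) (by norm_num)
  have e5 : T (G.α (G.σ^[5] d0)) = 3 := hT 4 (by norm_num) (by norm_num)
  simp only [Finset.sum_range_succ, Finset.sum_range_zero, zero_add]
  omega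

end Work

namespace Work

variable {G : PlaneGraph}

lemma len_alpha_of {a : G.D} (h : G.len (G.σ a) = 3) : G.len (G.α a) = 3 := by
  rw [← tri h, len_s_alpha, len_s_alpha, h]

/-- The left half of the configuration. -/
lemma left_half {R2 R3 R4 : G.D} (h3 : G.σ (G.σ (G.σ (G.α R3))) = R2)
    (h4 : G.σ (G.σ (G.σ (G.α R4))) = R3) (d2 : G.deg R2 = 7) (c2 : clean R2)
    (d3 : G.deg R3 = 5) (c4 : clean R4) (dv : x (G.σ R2) = 5)
    (dq : x (G.σ (G.σ R2)) = 5) (dm : x (G.σ (G.σ (G.σ R2))) = 5)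
    (cv : clean (G.α (G.σ R2))) (cq : clean (G.α (G.σ (G.σ R2))))
    (ct : clean (G.α (G.σ (G.σ (G.σ (G.α (G.σ R2))))))) :
    ∃ tg g4, G.σ (G.σ tg) = G.α (G.σ (G.σ (G.σ (G.α (G.σ R2))))) ∧
      G.α tg = G.σ (G.σ (G.σ g4)) ∧
      G.σ (G.α (G.σ (G.α (G.σ (G.σ (G.σ R4)))))) = g4 ∧
      (x tg = 5 → G.σ (G.α (G.σ (G.σ (G.α (G.σ (G.σ (G.σ R4))))))) = tg) := by
  -- the vertex v
  set v2 := G.α (G.σ R2) with hv2
  have v5 : G.σ (G.σ (G.σ (G.σ (G.σ v2)))) = v2 := five dv
  set vt := G.σ (G.σ (G.σ v2)) with hvt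
  set q2 := G.α (G.σ (G.σ R2)) with hq2
  have q5 : G.σ (G.σ (G.σ (G.σ (G.σ q2)))) = q2 := five dq
  set m2 := G.α (G.σ (G.σ (G.σ R2))) with hm2
  have m5 : G.σ (G.σ (G.σ (G.σ (G.σ m2)))) = m2 := five dm
  -- corner (v, q) at o2
  have t1 : G.σ (G.α (G.σ q2)) = v2 := tri (a := G.σ R2) c2.s.s.len
  have t1' : G.σ q2 = G.α (G.σ vt) := by
    have : G.α (G.σ q2) = G.σ vt := by
      apply G.σ.injective
      rw [t1]
      exact v5.symm
    rw [← this, G.alpha_alpha]
  -- corner (q, m) at o2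
  have t2 : G.σ (G.α (G.σ m2)) = q2 := tri (a := G.σ (G.σ R2)) c2.s.s.s.len
  -- corner (m, o3) at o2
  have e3 : G.σ (G.σ (G.σ (G.σ R2))) = G.α R3 := by
    apply G.σ.injective
    apply G.σ.injective
    apply G.σ.injective
    rw [h3]
    exact seven d2
  have t3 : G.σ (G.α (G.σ R3)) = m2 := by
    have := tri (a := G.σ (G.σ (G.σ R2))) c2.s.s.s.s.len
    rw [e3, G.alpha_alpha] at this
    exact this
  have e4 : G.σ (G.σ R3) = G.α R4 := by
    apply G.σ.injective
    apply G.σ.injective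
    apply G.σ.injective
    rw [h4]
    exact five d3
  -- corner (o3, m) at o4
  have t4 : G.σ (G.α (G.σ (G.α (G.σ R4)))) = G.α R4 := tri c4.s.len
  have t4' : G.σ (G.α (G.σ R4)) = G.α (G.σ R3) := by
    have : G.α (G.σ (G.α (G.σ R4))) = G.σ R3 := by
      apply G.σ.injective
      rw [t4, e4]
    rw [← this, G.alpha_alpha]
  have mo4 : G.σ (G.σ (G.α (G.σ R4))) = m2 := by rw [t4', t3]
  -- corner (m, g) at o4
  have t5 : G.σ (G.α (G.σ (G.α (G.σ (G.σ R4))))) = G.α (G.σ R4) := tri c4.s.s.len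
  have t5' : G.σ (G.α (G.σ (G.σ R4))) = G.α (G.σ (G.σ m2)) := by
    have : G.α (G.σ (G.α (G.σ (G.σ R4)))) = G.σ (G.σ m2) := by
      apply G.σ.injective
      apply G.σ.injective
      apply G.σ.injective
      rw [t5, mo4]
      exact m5.symm
    rw [← this, G.alpha_alpha]
  set g4 := G.α (G.σ (G.σ R4)) with hg4
  have gm : G.α (G.σ g4) = G.σ (G.σ m2) := by rw [t5', G.alpha_alpha]
  -- the face F1
  have lF1 : G.len (G.σ (G.σ m2)) = 3 := by
    have h1 : G.σ (G.α (G.α (G.σ m2))) = G.σ (G.σ m2) := by rw [G.alpha_alpha]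
    rw [← h1, len_s_alpha]
    have h2 : clean (G.α (G.σ m2)) := by
      apply clean.of_s
      rw [t2]
      exact cq
    exact h2.len
  have t6 : G.σ (G.α (G.σ (G.σ g4))) = G.α (G.σ m2) := by
    have := tri (a := G.σ m2) lF1
    rw [← gm, G.alpha_alpha] at this
    exact this
  have qg : G.σ (G.σ (G.α (G.σ (G.σ g4)))) = q2 := by rw [t6, t2]
  have qg' : G.σ (G.σ (G.σ q2)) = G.α (G.σ (G.σ g4)) := by
    apply G.σ.injective
    apply G.σ.injective
    rw [qg]
    exact q5
  -- corner (t, q) at v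
  have t7 : G.σ (G.α (G.σ (G.σ q2))) = G.α vt := by
    have := tri (a := vt) cv.s.s.s.s.len
    rw [← t1'] at this
    exact this
  -- corner (t, g) at q
  have t8 : G.σ (G.α (G.σ (G.σ (G.σ g4)))) = G.α (G.σ (G.σ q2)) := by
    have := tri (a := G.σ (G.σ q2)) cq.s.s.s.len
    rw [qg', G.alpha_alpha] at this
    exact this
  set tg := G.α (G.σ (G.σ (G.σ g4))) with htg
  have tg2 : G.σ (G.σ tg) = G.α vt := by rw [t8, t7]
  have ctg : clean tg := by
    apply clean.of_s
    apply clean.of_s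
    rw [tg2]
    exact ct
  -- corner (g, m5) at o4
  have t9 : G.σ (G.α (G.σ (G.α (G.σ (G.σ (G.σ R4)))))) = g4 := tri c4.s.s.s.len
  refine ⟨tg, g4, tg2, by rw [htg, G.alpha_alpha], t9, fun hx => ?_⟩
  have dg : G.deg g4 = 5 := by
    have h1 : G.deg (G.α tg) = 5 := hx
    rw [htg, G.alpha_alpha, deg_sigma, deg_sigma, deg_sigma] at h1
    exact h1
  have g5 := five dg
  set m4 := G.α (G.σ (G.σ (G.σ R4))) with hm4
  have e5 : G.α (G.σ m4) = G.σ (G.σ (G.σ (G.σ g4))) := by
    apply G.σ.injective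
    rw [t9, g5]
  have e5' : G.σ m4 = G.α (G.σ (G.σ (G.σ (G.σ g4)))) := by rw [← e5, G.alpha_alpha]
  have lF : G.len (G.σ (G.σ (G.σ (G.σ g4)))) = 3 := by
    have h1 : G.σ (G.α tg) = G.σ (G.σ (G.σ (G.σ g4))) := by rw [htg, G.alpha_alpha]
    rw [← h1, len_s_alpha]
    exact ctg.len
  have t10 := tri (a := G.σ (G.σ (G.σ g4))) lF
  rw [← e5'] at t10
  exact t10

/-- The right half of the configuration. -/
lemma right_half {v1 R1 R6 R7 : G.D} (h2 : G.α v1 = G.σ (G.σ (G.σ R1)))
    (h7 : G.σ (G.σ (G.σ (G.α R7))) = R6)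
    (h1 : G.σ (G.σ (G.σ (G.α R1))) = R7) (c1 : clean R1) (d6 : G.deg R6 = 7)
    (c6 : clean R6) (d7 : G.deg R7 = 5)
    (dp : x (G.σ (G.σ R1)) = 5) (dm : x (G.σ R1) = 5)
    (cv : clean v1) (cp : clean (G.α (G.σ (G.σ R1))))
    (ct : clean (G.α (G.σ (G.σ v1)))) :
    ∃ g6, G.σ (G.σ (G.σ (G.α (G.σ (G.σ (G.α (G.σ (G.σ v1)))))))) = g6 ∧
      G.σ (G.α (G.σ g6)) = G.α (G.σ R6) ∧
      (x (G.σ (G.σ (G.α (G.σ (G.σ v1))))) = 5 →
        G.σ (G.σ (G.α (G.σ (G.σ (G.σ (G.α (G.σ (G.σ v1)))))))) = G.α (G.σ R6)) := by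
  set tv := G.α (G.σ (G.σ v1)) with htv
  set M1 := G.α (G.σ R1) with hM1
  have m5 : G.σ (G.σ (G.σ (G.σ (G.σ M1)))) = M1 := five dm
  set P1 := G.α (G.σ (G.σ R1)) with hP1
  have p5 : G.σ (G.σ (G.σ (G.σ (G.σ P1)))) = P1 := five dp
  -- o7
  have e1 : G.σ (G.σ R7) = G.α R1 := by
    apply G.σ.injective
    apply G.σ.injective
    apply G.σ.injective
    rw [h1]
    exact five d7
  have e2 : G.σ (G.σ (G.σ (G.σ R6))) = G.α R7 := by
    apply G.σ.injective
    apply G.σ.injective
    apply G.σ.injective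
    rw [h7]
    exact seven d6
  -- corner (o7, m7) at o1
  have t1 : G.σ (G.α (G.σ M1)) = G.α R1 := tri c1.s.len
  have t1' : G.σ M1 = G.α (G.σ R7) := by
    have : G.α (G.σ M1) = G.σ R7 := by
      apply G.σ.injective
      rw [t1, e1]
    rw [← this, G.alpha_alpha]
  -- corner (m7, p5) at o1
  have t2 : G.σ (G.α (G.σ P1)) = M1 := tri (a := G.σ R1) c1.s.s.len
  -- corner (p5, v) at o1
  have t3 : G.σ (G.α (G.σ v1)) = P1 := by
    have := tri (a := G.σ (G.σ R1)) c1.s.s.s.len
    rw [← h2, G.alpha_alpha] at this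
    exact this
  -- corner (m7, o7) at o6
  have t4 : G.σ (G.α (G.σ R7)) = G.α (G.σ (G.σ (G.σ R6))) := by
    have := tri (a := G.σ (G.σ (G.σ R6))) c6.s.s.s.s.len
    rw [e2, G.alpha_alpha] at this
    exact this
  have t4' : G.σ (G.σ M1) = G.α (G.σ (G.σ (G.σ R6))) := by rw [t1', t4]
  -- corner (g6, m7) at o6
  have t5 : G.σ (G.α (G.σ (G.σ (G.σ M1)))) = G.α (G.σ (G.σ R6)) := by
    have := tri (a := G.σ (G.σ R6)) c6.s.s.s.len
    rw [← t4'] at this
    exact this
  -- the face F6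
  have e3 : G.σ (G.σ (G.σ (G.σ M1))) = G.α (G.σ P1) := by
    apply G.σ.injective
    rw [m5, t2]
  have lF : G.len (G.α (G.σ P1)) = 3 := by
    rw [← len_s_alpha, G.alpha_alpha]
    exact cp.s.s.len
  have t6 : G.σ (G.α (G.σ (G.σ P1))) = G.α (G.σ (G.σ (G.σ M1))) := by
    have := tri (a := G.σ (G.σ (G.σ M1))) (by rw [e3]; exact lF)
    rw [e3, G.alpha_alpha] at this
    exact this
  -- corner (p, t) at v
  have t7 : G.σ (G.α (G.σ tv)) = G.α (G.σ v1) := tri (a := G.σ v1) cv.s.s.len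
  have t7' : G.σ tv = G.α (G.σ (G.σ (G.σ P1))) := by
    have : G.α (G.σ tv) = G.σ (G.σ (G.σ P1)) := by
      apply G.σ.injective
      apply G.σ.injective
      rw [t7, t3]
      exact p5.symm
    rw [← this, G.alpha_alpha]
  -- corner (g6, t) at p5
  have t8 : G.σ (G.α (G.σ (G.σ tv))) = G.α (G.σ (G.σ P1)) := by
    have := tri (a := G.σ (G.σ P1)) cp.s.s.s.len
    rw [← t7'] at this
    exact this
  have t8' : G.σ (G.σ (G.α (G.σ (G.σ tv)))) = G.α (G.σ (G.σ (G.σ M1))) := by
    rw [t8, t6]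
  have t8'' : G.σ (G.σ (G.σ (G.α (G.σ (G.σ tv))))) = G.α (G.σ (G.σ R6)) := by
    rw [t8', t5]
  -- corner (m5, g6) at o6
  have t9 : G.σ (G.α (G.σ (G.α (G.σ (G.σ R6))))) = G.α (G.σ R6) := tri (a := G.σ R6) c6.s.s.len
  refine ⟨G.α (G.σ (G.σ R6)), t8'', t9, fun hx => ?_⟩
  set g6 := G.α (G.σ (G.σ R6)) with hg6
  set gt := G.α (G.σ (G.σ tv)) with hgt
  have g5 : G.σ (G.σ (G.σ (G.σ (G.σ gt)))) = gt := five hx
  rw [t8''] at g5
  have lg : G.len (G.σ (G.σ g6)) = 3 := by
    rw [g5, ← len_s_alpha, hgt, G.alpha_alpha]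
    exact ct.s.s.s.len
  have t10 := tri (a := G.σ g6) lg
  rw [g5, hgt, G.alpha_alpha] at t10
  rw [t10, t9]

/-- The configuration of a bad vertex. -/
lemma struct0 {R1 R2 R3 R4 R5 R6 R7 : G.D}
    (h3 : G.σ (G.σ (G.σ (G.α R3))) = R2) (h4 : G.σ (G.σ (G.σ (G.α R4))) = R3)
    (h5 : G.σ (G.σ (G.σ (G.α R5))) = R4) (h6 : G.σ (G.σ (G.σ (G.α R6))) = R5)
    (h7 : G.σ (G.σ (G.σ (G.α R7))) = R6) (h1 : G.σ (G.σ (G.σ (G.α R1))) = R7)
    (h2 : G.σ (G.σ (G.σ (G.α R2))) = R1)
    (r2 : rich R2) (r1 : rich R1) (d3 : G.deg R3 = 5) (r4 : rich R4) (d5 : G.deg R5 = 5)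
    (r6 : rich R6) (d7 : G.deg R7 = 5)
    (dv : x (G.σ R2) = 5) (dq : x (G.σ (G.σ R2)) = 5) (dm3 : x (G.σ (G.σ (G.σ R2))) = 5)
    (dp : x (G.σ (G.σ R1)) = 5) (dm7 : x (G.σ R1) = 5)
    (cv : clean (G.α (G.σ R2))) (cq : clean (G.α (G.σ (G.σ R2))))
    (cp : clean (G.α (G.σ (G.σ R1))))
    (rt : rich (G.α (G.σ (G.σ (G.σ (G.α (G.σ R2))))))) : False := by
  have hv1 : G.σ (G.α (G.σ (G.α (G.σ R2)))) = G.α R2 := tri r2.clean.s.len
  have hv1' : G.α (G.σ (G.α (G.σ R2))) = G.σ (G.σ (G.σ R1)) := by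
    apply G.σ.injective
    rw [hv1]
    apply G.σ.injective
    apply G.σ.injective
    apply G.σ.injective
    rw [h2]
    exact (seven r1.deg).symm
  obtain ⟨tg, g4, a1, a2, a3, a4⟩ := left_half h3 h4 r2.deg r2.clean d3 r4.clean dv dq dm3 cv cq
    rt.clean
  obtain ⟨g6, b1, b2, b3⟩ := right_half (v1 := G.σ (G.α (G.σ R2))) hv1' h7 h1 r1.clean r6.deg
    r6.clean d7 dp dm7 cv.s cp rt.clean
  set tv := G.α (G.σ (G.σ (G.σ (G.α (G.σ R2))))) with htv
  -- the vertex m5
  have e4 : G.σ (G.σ (G.σ (G.σ R4))) = G.α R5 := by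
    apply G.σ.injective
    apply G.σ.injective
    apply G.σ.injective
    rw [h5]
    exact seven r4.deg
  have e5 : G.σ (G.σ R5) = G.α R6 := by
    apply G.σ.injective
    apply G.σ.injective
    apply G.σ.injective
    rw [h6]
    exact five d5
  have u1 : G.σ (G.α (G.σ R5)) = G.α (G.σ (G.σ (G.σ R4))) := by
    have := tri (a := G.σ (G.σ (G.σ R4))) r4.clean.s.s.s.s.len
    rw [e4, G.alpha_alpha] at this
    exact this
  have u2 : G.σ (G.α (G.σ (G.α (G.σ R6)))) = G.α R6 := tri r6.clean.s.len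
  have u2' : G.σ (G.α (G.σ R6)) = G.α (G.σ R5) := by
    have : G.α (G.σ (G.α (G.σ R6))) = G.σ R5 := by
      apply G.σ.injective
      rw [u2, e5]
    rw [← this, G.alpha_alpha]
  have mid : G.σ (G.σ (G.α (G.σ R6))) = G.α (G.σ (G.σ (G.σ R4))) := by rw [u2', u1]
  set m6 := G.α (G.σ R6) with hm6
  set m4 := G.α (G.σ (G.σ (G.σ R4))) with hm4
  have t7 := seven rt.deg
  have stv : G.σ.SameCycle tv tg := by
    rw [← a1]
    exact ((sc_s _).trans (sc_s _)).symm
  have stg : G.σ.SameCycle tv (G.σ (G.σ tv)) := (sc_s _).trans (sc_s _)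
  have sm : G.σ.SameCycle m6 m4 := by
    rw [← mid]
    exact (sc_s _).trans (sc_s _)
  by_cases n1 : x tg = 5
  · have q1 := a4 n1
    set dL := G.α (G.σ (G.σ m4)) with hdL
    have sdL : G.σ.SameCycle tv dL := by
      refine stv.trans ?_
      rw [← q1]
      exact (sc_s _).symm
    have mdL : G.σ.SameCycle m6 (G.α dL) := by
      rw [hdL, G.alpha_alpha]
      exact sm.trans ((sc_s _).trans (sc_s _))
    have q1' : G.σ (G.σ (G.σ dL)) = tv := by rw [q1, a1]
    by_cases n2 : x (G.σ (G.σ tv)) = 5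
    · have q2 := b3 n2
      have sdR : G.σ.SameCycle tv (G.σ (G.σ (G.σ tv))) := stg.trans (sc_s _)
      have mdR : G.σ.SameCycle m6 (G.α (G.σ (G.σ (G.σ tv)))) := by
        rw [← q2]
        exact ((sc_s _).trans (sc_s _)).symm
      have heq := G.no_multi dL (G.σ (G.σ (G.σ tv))) (sdL.symm.trans sdR) (mdL.symm.trans mdR)
      have h8 : G.σ^[6] tv = tv := by
        show G.σ (G.σ (G.σ (G.σ (G.σ (G.σ tv))))) = tv
        rw [← heq, q1']
      exact iter_ne (by norm_num) (by rw [rt.deg]; norm_num) h8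
    · have hne : dL ≠ G.σ (G.σ tv) := by
        intro he
        rw [he] at q1'
        have h8 : G.σ^[5] tv = tv := q1'
        exact iter_ne (by norm_num) (by rw [rt.deg]; norm_num) h8
      have hx : x dL = 5 := by
        by_contra hx
        exact hne (rt.uniq sdL stg hx n2)
      have dm : G.deg m6 = 5 := by
        rw [deg_congr mdL]
        exact hx
      have m5 := five dm
      rw [mid] at m5
      have e6 : G.α (G.σ g6) = G.σ (G.σ m4) := by
        apply G.σ.injective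
        rw [b2, m5]
      have e7 : G.σ g6 = dL := by rw [hdL, ← e6, G.alpha_alpha]
      apply G.no_loop (G.σ (G.σ tv))
      have h9 : G.σ.SameCycle (G.α (G.σ (G.σ tv))) g6 := by
        rw [← b1]
        exact ((sc_s _).trans (sc_s _)).trans (sc_s _)
      have h10 : G.σ.SameCycle g6 dL := by
        rw [← e7]
        exact sc_s _
      exact stg.symm.trans (sdL.trans (h10.symm.trans h9.symm))
  · by_cases n2 : x (G.σ (G.σ tv)) = 5
    · have q2 := b3 n2
      set dR := G.σ (G.σ (G.σ tv)) with hdR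
      have sdR : G.σ.SameCycle tv dR := stg.trans (sc_s _)
      have mdR : G.σ.SameCycle m6 (G.α dR) := by
        rw [← q2]
        exact ((sc_s _).trans (sc_s _)).symm
      have hne : dR ≠ tg := by
        intro he
        rw [← he] at a1
        have h8 : G.σ^[5] tv = tv := a1
        exact iter_ne (by norm_num) (by rw [rt.deg]; norm_num) h8
      have hx : x dR = 5 := by
        by_contra hx
        exact hne (rt.uniq sdR stv hx n1)
      have dm : G.deg (G.α dR) = 5 := hx
      have m5 := five dm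
      rw [q2, mid] at m5
      have e6 : G.α (G.σ m4) = dR := by rw [m5, G.alpha_alpha]
      rw [e6] at a3
      apply G.no_loop tg
      have h9 : G.σ.SameCycle g4 (G.α tg) := by
        rw [a2]
        exact ((sc_s _).trans (sc_s _)).trans (sc_s _)
      have h10 : G.σ.SameCycle dR g4 := by
        rw [← a3]
        exact sc_s _
      exact stv.symm.trans (sdR.trans (h10.trans h9))
    · have h8 := rt.uniq stv stg n1 n2
      rw [h8] at a1
      have h9 : G.σ^[4] tv = tv := a1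
      exact iter_ne (by norm_num) (by rw [rt.deg]; norm_num) h9

end Work

namespace Work

variable {G : PlaneGraph}

lemma head5 {r : G.D} (hr : rich r) (hx : x r ≠ 5) {k : ℕ} (h0 : 0 < k) (h7 : k < 7) :
    x (G.σ^[k] r) = 5 := by
  by_contra hn
  have h1 := hr.uniq (Equiv.Perm.SameCycle.refl _ _) (sc_iter r k) hx hn
  exact iter_ne h0 (by rw [hr.deg]; exact h7) h1.symm

lemma bd_le (a b c d e f g : Fin 4) : bd a b c d e f g ≤ 1 := by
  unfold bd
  split_ifs <;> norm_num

lemma bad_le (d : G.D) : bad d ≤ rv (G.σ (G.σ (G.σ (G.α (G.σ (R d)))))) +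
    ru (G.α (G.σ (G.σ (R d)))) + ru (G.α (G.σ.symm (G.σ.symm (G.α (R d))))) := by
  unfold bad
  split_ifs with h
  swap
  · exact Nat.zero_le _
  obtain ⟨hA, hcl⟩ := h
  unfold bd
  split_ifs with hb
  swap
  · exact Nat.zero_le _
  obtain ⟨b1, b2', b3, b4, b5, b6, b7⟩ := hb
  by_contra hcon
  have z1 : rv (G.σ (G.σ (G.σ (G.α (G.σ (R d)))))) = 0 := by omega
  have z2 : ru (G.α (G.σ (G.σ (R d)))) = 0 := by omega
  have z3 : ru (G.α (G.σ.symm (G.σ.symm (G.α (R d))))) = 0 := by omega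
  clear hcon
  have s0 : G.σ.SameCycle d d := Equiv.Perm.SameCycle.refl _ _
  have s1 : G.σ.SameCycle d (G.σ d) := sc_s d
  have s2 := s1.trans (sc_s _)
  have s3 := s2.trans (sc_s _)
  have s4 := s3.trans (sc_s _)
  have s5 := s4.trans (sc_s _)
  have s6 := s5.trans (sc_s _)
  have hd := seven hA.1
  have hsy : G.σ.symm d = G.σ (G.σ (G.σ (G.σ (G.σ (G.σ d))))) := by
    rw [Equiv.symm_apply_eq, hd]
  rw [hsy] at b1
  have hl1 : ∀ d', G.σ.SameCycle d d' → G.len d' = 3 := fun d' h' => hA.2.1 d' h'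
  have e3 := Work.R3 (hl1 _ s1) (hA.2.2 _ s0) (hcl _ s0) (hcl _ s1)
  have e4 := Work.R3 (hl1 _ s2) (hA.2.2 _ s1) (hcl _ s1) (hcl _ s2)
  have e5 := Work.R3 (hl1 _ s3) (hA.2.2 _ s2) (hcl _ s2) (hcl _ s3)
  have e6 := Work.R3 (hl1 _ s4) (hA.2.2 _ s3) (hcl _ s3) (hcl _ s4)
  have e7 := Work.R3 (hl1 _ s5) (hA.2.2 _ s4) (hcl _ s4) (hcl _ s5)
  have e1 := Work.R3 (hl1 _ s6) (hA.2.2 _ s5) (hcl _ s5) (hcl _ s6)
  have e2 := Work.R3 (d := G.σ (G.σ (G.σ (G.σ (G.σ (G.σ d)))))) (by rw [hd]; exact hl1 _ s0)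
    (hA.2.2 _ s6) (hcl _ s6) (by rw [hd]; exact hcl _ s0)
  rw [hd] at e2
  unfold L at b1 b2' b3 b4 b5 b6 b7
  generalize R (G.σ (G.σ (G.σ (G.σ (G.σ (G.σ d)))))) = r1 at *
  generalize R (G.σ (G.σ (G.σ (G.σ (G.σ d))))) = r7 at *
  generalize R (G.σ (G.σ (G.σ (G.σ d)))) = r6 at *
  generalize R (G.σ (G.σ (G.σ d))) = r5 at *
  generalize R (G.σ (G.σ d)) = r4 at *
  generalize R (G.σ d) = r3 at *
  generalize R d = r2 at *
  have R2r : rich r2 := Or.inr b2'
  have R1r : rich r1 := Or.inr b1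
  have xr2 : x r2 ≠ 5 := by
    unfold x
    rw [← deg_sigma, ← deg_sigma, ← deg_sigma, e2, R1r.deg]
    norm_num
  have xr1 : x (G.α r2) ≠ 5 := by
    unfold x
    rw [G.alpha_alpha, R2r.deg]
    norm_num
  have Rα : rich (G.α r2) := by
    have : rich (G.σ (G.σ (G.σ (G.α r2)))) := by rw [e2]; exact R1r
    exact (rich_congr (((sc_s _).trans (sc_s _)).trans (sc_s _))).2 this
  have dv : x (G.σ r2) = 5 := head5 R2r xr2 (k := 1) (by norm_num) (by norm_num)
  have dq : x (G.σ (G.σ r2)) = 5 := head5 R2r xr2 (k := 2) (by norm_num) (by norm_num)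
  have dm : x (G.σ (G.σ (G.σ r2))) = 5 := head5 R2r xr2 (k := 3) (by norm_num) (by norm_num)
  have dm7 : x (G.σ r1) = 5 := by
    have := head5 Rα xr1 (k := 4) (by norm_num) (by norm_num)
    rw [← e2]
    exact this
  have dp : x (G.σ (G.σ r1)) = 5 := by
    have := head5 Rα xr1 (k := 5) (by norm_num) (by norm_num)
    rw [← e2]
    exact this
  have ep : G.σ.symm (G.σ.symm (G.α r2)) = G.σ (G.σ r1) := by
    rw [Equiv.symm_apply_eq, Equiv.symm_apply_eq]
    apply G.σ.injective
    apply G.σ.injective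
    apply G.σ.injective
    rw [e2]
    exact (seven R1r.deg).symm
  rw [ep] at z3
  -- the vertex v
  have hv5 := five (d := G.α (G.σ r2)) dv
  have hv1 : G.σ (G.α (G.σ (G.α (G.σ r2)))) = G.α r2 := tri R2r.clean.s.len
  have l2 : hl (G.α (G.σ r2)) = 2 := by
    unfold hl
    rw [G.alpha_alpha, lab_s, b2']
  have l1 : hl (G.σ (G.α (G.σ r2))) = 2 := by
    unfold hl
    rw [← lab_s, hv1, ← lab_s, ← lab_s, ← lab_s, e2, b1]
  have dv' : G.deg (G.α (G.σ r2)) = 5 := dv
  have hcv : clean (G.α (G.σ r2)) ∧ rich (G.α (G.σ (G.σ (G.σ (G.α (G.σ r2)))))) := by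
    unfold rv at z1
    rw [deg_sigma, deg_sigma, deg_sigma, if_pos dv', hv5] at z1
    split_ifs at z1 with hc
    · refine ⟨hc.of_s.of_s.of_s, ?_⟩
      unfold rvc at z1
      split_ifs at z1 with h'
      by_contra hno
      exact h' ⟨l2, l1, hno⟩
    · exfalso
      unfold rvu at z1
      rw [if_pos ⟨l2, l1⟩] at z1
      exact absurd z1 (by norm_num)
  have hru : ∀ e : G.D, x e = 5 → lab e = 2 → ru (G.α e) = 0 → clean (G.α e) := by
    intro e h1 h2 h3
    by_contra hno
    unfold ru at h3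
    have h1' : G.deg (G.α e) = 5 := h1
    rw [if_pos ⟨h1', hno⟩] at h3
    have h4 : hl (G.α e) = 2 := by
      unfold hl
      rw [G.alpha_alpha, h2]
    rw [h4] at h3
    exact absurd h3 (by decide)
  have hcq := hru _ dq (by rw [lab_s, lab_s, b2']) z2
  have hcp := hru _ dp (by rw [lab_s, lab_s, b1]) z3
  exact struct0 e3 e4 e5 e6 e7 e1 e2 R2r R1r (lab_zero.1 b3) b4 (lab_zero.1 b5) b6
    (lab_zero.1 b7) dv dq dm dp dm7 hcv.1 hcq hcp hcv.2

lemma f5_le (d : G.D) : f5 d ≤ 1 := by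
  unfold f5 z5
  split_ifs <;> norm_num

lemma f5_zero {d : G.D} (h : x d ≠ 5) : f5 d = 0 := by
  unfold f5 z5
  rw [if_neg]
  intro h'
  exact h (hl_zero.1 h')

lemma exists_lt {d d' : G.D} (h : G.deg d = 7) (hs : G.σ.SameCycle d d') :
    ∃ i, i < 7 ∧ G.σ^[i] d = d' := by
  obtain ⟨n, hn⟩ := hs.exists_nat_pow_eq
  have hk' : minimalPeriod G.σ d = 7 := by
    rw [← h]
    unfold deg
    rw [orbit_card]
  refine ⟨n % 7, Nat.mod_lt _ (by norm_num), ?_⟩
  rw [← hk', iterate_mod_minimalPeriod_eq, Equiv.Perm.iterate_eq_pow]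
  exact hn

/-- The balance of a vertex of degree `7`. -/
lemma bal7 {d : G.D} (h : G.deg d = 7) :
    12 * ∑ i ∈ Finset.range 7, f5 (G.σ^[i] d) ≤
      60 + ∑ i ∈ Finset.range 7, (T (G.α (G.σ^[i] d)) + 2 * bad (G.σ^[i] d) +
        big (G.σ^[i] d)) := by
  rw [Finset.sum_add_distrib (g := fun i => big (G.σ^[i] d))]
  have h7 : ∑ i ∈ Finset.range 7, f5 (G.σ^[i] d) ≤ 7 := by
    refine le_trans (Finset.sum_le_sum (g := fun _ => 1) fun i _ => f5_le _) ?_
    simp
  by_cases hc : clean d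
  · by_cases hA : isA d
    · have := balA hA
      omega
    · have h1 : ∃ d1, G.σ.SameCycle d d1 ∧ x d1 ≠ 5 := by
        by_contra hno
        push Not at hno
        exact hA ⟨h, hc, hno⟩
      obtain ⟨d1, s1, n1⟩ := h1
      obtain ⟨i, hi, ei⟩ := exists_lt h s1
      by_cases hB : isB d
      · have h2 := balB hB
        have h3 : ∑ m ∈ Finset.range 7, T (G.α (G.σ^[m] d)) ≤
            ∑ m ∈ Finset.range 7, (T (G.α (G.σ^[m] d)) + 2 * bad (G.σ^[m] d)) :=
          Finset.sum_le_sum fun m _ => Nat.le_add_right _ _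
        have h4 : ∑ m ∈ Finset.range 7, f5 (G.σ^[m] d) ≤
            ∑ m ∈ Finset.range 7, (if m = i then 0 else 1) := by
          refine Finset.sum_le_sum fun m _ => ?_
          split_ifs with hm
          · rw [hm, ei, f5_zero n1]
          · exact f5_le _
        have h5 : ∑ m ∈ Finset.range 7, (if m = i then 0 else 1) ≤ 6 := by
          interval_cases i <;> decide
        omega
      · have h2 : ∃ d2, G.σ.SameCycle d d2 ∧ x d2 ≠ 5 ∧ d2 ≠ d1 := by
          by_contra hno
          push Not at hno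
          refine hB ⟨h, hc, d1, s1, fun d' hd' => ?_⟩
          constructor
          · intro h' h''
            rw [h''] at h'
            exact n1 h'
          · intro h'
            by_contra h''
            exact h' (hno d' hd' h'')
        obtain ⟨d2, s2, n2, hne⟩ := h2
        obtain ⟨j, hj, ej⟩ := exists_lt h s2
        have hij : i ≠ j := by
          rintro rfl
          exact hne (ej.symm.trans ei)
        have h4 : ∑ m ∈ Finset.range 7, f5 (G.σ^[m] d) ≤
            ∑ m ∈ Finset.range 7, (if m = i ∨ m = j then 0 else 1) := by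
          refine Finset.sum_le_sum fun m _ => ?_
          split_ifs with hm
          · rcases hm with hm | hm
            · rw [hm, ei, f5_zero n1]
            · rw [hm, ej, f5_zero n2]
          · exact f5_le _
        have h5 : ∑ m ∈ Finset.range 7, (if m = i ∨ m = j then 0 else 1) ≤ 5 := by
          interval_cases i <;> interval_cases j <;> first | (exact absurd rfl hij) | decide
        omega
  · have := big_sum h hc
    omega

lemma avgN {D : Type} [Fintype D] (τ : Equiv.Perm D) (k : ℕ) (g : D → ℕ) :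
    k * ∑ d, g d = ∑ d, ∑ i ∈ Finset.range k, g (τ^[i] d) := by
  rw [Finset.sum_comm]
  have h1 : ∀ i ∈ Finset.range k, ∑ d, g (τ^[i] d) = ∑ d, g d := by
    intro i _
    have h2 := Equiv.sum_comp (τ ^ i) g
    rw [← h2]
    exact Finset.sum_congr rfl fun d _ => by rw [Equiv.Perm.iterate_eq_pow]
  rw [Finset.sum_congr rfl h1, Finset.sum_const, Finset.card_range, smul_eq_mul]

/-- Averaging over the vertices of degree `k`. -/
lemma avg_deg (G : PlaneGraph) (k : ℕ) (g : G.D → ℕ) :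
    k * ∑ d : G.D, (if G.deg d = k then g d else 0) =
      ∑ d : G.D, (if G.deg d = k then ∑ i ∈ Finset.range k, g (G.σ^[i] d) else 0) := by
  rw [avgN G.σ k]
  refine Finset.sum_congr rfl fun d _ => ?_
  split_ifs with h
  · exact Finset.sum_congr rfl fun i _ => if_pos (by rw [deg_iter, h])
  · exact Finset.sum_eq_zero fun i _ => if_neg (by rw [deg_iter]; exact h)

lemma T_zero {d : G.D} (h : G.deg d ≠ 5) : T d = 0 := if_neg h

lemma rv_zero {d : G.D} (h : G.deg d ≠ 5) : rv d = 0 := if_neg h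

lemma ru_zero {d : G.D} (h : G.deg d ≠ 5) : ru d = 0 := if_neg fun h' => h h'.1

lemma sum_bad (G : PlaneGraph) : ∑ d : G.D, bad d ≤ ∑ d : G.D, (rv d + 2 * ru d) := by
  have h1 : ∑ d : G.D, rv (G.σ (G.σ (G.σ (G.α (G.σ (R d)))))) = ∑ d : G.D, rv d :=
    Equiv.sum_comp (G.σ * (G.σ * (G.σ * (G.α * (G.σ * (G.σ * (G.α * (G.σ * (G.σ *
      (G.σ * G.α)))))))))) rv
  have h2 : ∑ d : G.D, ru (G.α (G.σ (G.σ (R d)))) = ∑ d : G.D, ru d :=
    Equiv.sum_comp (G.α * (G.σ * (G.σ * (G.σ * (G.α * (G.σ * (G.σ * (G.σ * G.α)))))))) ru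
  have h3 : ∑ d : G.D, ru (G.α (G.σ.symm (G.σ.symm (G.α (R d))))) = ∑ d : G.D, ru d :=
    Equiv.sum_comp (G.α * (G.σ.symm * (G.σ.symm * (G.α * (G.σ * (G.α * (G.σ * (G.σ *
      (G.σ * G.α))))))))) ru
  calc ∑ d : G.D, bad d ≤ ∑ d : G.D, (rv (G.σ (G.σ (G.σ (G.α (G.σ (R d)))))) +
      ru (G.α (G.σ (G.σ (R d)))) + ru (G.α (G.σ.symm (G.σ.symm (G.α (R d)))))) :=
        Finset.sum_le_sum fun d _ => bad_le d
    _ = ∑ d : G.D, rv d + ∑ d : G.D, ru d + ∑ d : G.D, ru d := by
        rw [Finset.sum_add_distrib, Finset.sum_add_distrib, h1, h2, h3]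
    _ = ∑ d : G.D, (rv d + 2 * ru d) := by
        rw [Finset.sum_add_distrib, ← Finset.mul_sum]
        ring

/-- The discharging. -/
lemma discharge (G : PlaneGraph) :
    12 * ∑ d : G.D, (if G.deg d = 7 then 7 * f5 d else 0) ≤
      60 * ∑ d : G.D, (if G.deg d = 7 then 1 else 0) +
      7 * (2 * ∑ d : G.D, (if G.deg d = 5 then f5 d else 0) + ∑ d : G.D, big d) := by
  -- degree 7
  have h1 : 12 * ∑ d : G.D, (if G.deg d = 7 then 7 * f5 d else 0) ≤
      60 * ∑ d : G.D, (if G.deg d = 7 then 1 else 0) +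
      7 * ∑ d : G.D, (if G.deg d = 7 then T (G.α d) + 2 * bad d + big d else 0) := by
    have e1 := avg_deg G 7 f5
    have e2 := avg_deg G 7 (fun d => T (G.α d) + 2 * bad d + big d)
    have e3 : ∑ d : G.D, (if G.deg d = 7 then 7 * f5 d else 0) =
        7 * ∑ d : G.D, (if G.deg d = 7 then f5 d else 0) := by
      rw [Finset.mul_sum]
      refine Finset.sum_congr rfl fun d _ => ?_
      split_ifs <;> rfl
    rw [e3, e1, e2, Finset.mul_sum, Finset.mul_sum, ← Finset.sum_add_distrib]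
    refine Finset.sum_le_sum fun d _ => ?_
    split_ifs with h
    · have := bal7 h
      omega
    · exact le_refl _
  -- degree 5
  have h2 : ∑ d : G.D, (T d + 2 * rv d + 4 * ru d) ≤
      ∑ d : G.D, (if G.deg d = 5 then 2 * f5 d + big d else 0) := by
    have e1 := avg_deg G 5 (fun d => T d + 2 * rv d + 4 * ru d)
    have e2 := avg_deg G 5 (fun d => 2 * f5 d + big d)
    have e3 : ∑ d : G.D, (T d + 2 * rv d + 4 * ru d) =
        ∑ d : G.D, (if G.deg d = 5 then T d + 2 * rv d + 4 * ru d else 0) := by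
      refine Finset.sum_congr rfl fun d _ => ?_
      split_ifs with h
      · rfl
      · rw [T_zero h, rv_zero h, ru_zero h]
    have e4 : ∑ d : G.D, (if G.deg d = 5 then
          ∑ i ∈ Finset.range 5, (T (G.σ^[i] d) + 2 * rv (G.σ^[i] d) + 4 * ru (G.σ^[i] d)) else 0) ≤
        ∑ d : G.D, (if G.deg d = 5 then
          ∑ i ∈ Finset.range 5, (2 * f5 (G.σ^[i] d) + big (G.σ^[i] d)) else 0) := by
      refine Finset.sum_le_sum fun d _ => ?_
      split_ifs with h
      · exact bal5 h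
      · exact le_refl _
    rw [e3]
    omega
  have h3 : ∑ d : G.D, (if G.deg d = 7 then T (G.α d) + 2 * bad d + big d else 0) ≤
      ∑ d : G.D, T d + 2 * ∑ d : G.D, bad d + ∑ d : G.D, (if G.deg d = 7 then big d else 0) := by
    have e1 : ∑ d : G.D, T (G.α d) = ∑ d : G.D, T d := Equiv.sum_comp G.α T
    rw [← e1, Finset.mul_sum, ← Finset.sum_add_distrib, ← Finset.sum_add_distrib]
    refine Finset.sum_le_sum fun d _ => ?_
    split_ifs with h
    · exact le_refl _
    · exact Nat.zero_le _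
  have h4 := sum_bad G
  have h5 : ∑ d : G.D, (T d + 2 * rv d + 4 * ru d) =
      ∑ d : G.D, T d + 2 * ∑ d : G.D, (rv d + 2 * ru d) := by
    rw [Finset.mul_sum, ← Finset.sum_add_distrib]
    refine Finset.sum_congr rfl fun d _ => ?_
    ring
  have h6 : ∑ d : G.D, (if G.deg d = 5 then 2 * f5 d + big d else 0) =
      2 * ∑ d : G.D, (if G.deg d = 5 then f5 d else 0) +
      ∑ d : G.D, (if G.deg d = 5 then big d else 0) := by
    rw [Finset.mul_sum, ← Finset.sum_add_distrib]
    refine Finset.sum_congr rfl fun d _ => ?_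
    split_ifs <;> rfl
  have h7 : ∑ d : G.D, (if G.deg d = 5 then big d else 0) +
      ∑ d : G.D, (if G.deg d = 7 then big d else 0) ≤ ∑ d : G.D, big d := by
    rw [← Finset.sum_add_distrib]
    refine Finset.sum_le_sum fun d _ => ?_
    split_ifs with h h' <;> omega
  omega

end Work

/-- The edge of the dart `d` joins a vertex of degree `i` to a vertex of degree `j`. -/
def IsEdge (G : PlaneGraph) (i j : ℕ) (d : G.D) : Prop :=
  (G.deg d = i ∧ G.deg (G.α d) = j) ∨ (G.deg d = j ∧ G.deg (G.α d) = i)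

/-- `e_{i,j}`: the number of edges (pairs `{d, α d}`) joining a vertex of degree `i` to a vertex of
degree `j`. -/
noncomputable def e (G : PlaneGraph) (i j : ℕ) : ℕ := numOrbits G.α (IsEdge G i j)

namespace Work

lemma isEdge_alpha {G : PlaneGraph} {i j : ℕ} {d : G.D} :
    IsEdge G i j (G.α d) ↔ IsEdge G i j d := by
  unfold IsEdge
  rw [G.alpha_alpha]
  tauto

open Classical in
/-- The number of darts of the edges of a given type. -/
lemma sum_edge (G : PlaneGraph) (i j : ℕ) :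
    ∑ d : G.D, (if IsEdge G i j d then (1 : ℝ) else 0) = 2 * e G i j := by
  have h := sum_inv_orbit G.α (IsEdge G i j) (fun d => isEdge_alpha)
  unfold e
  rw [← h, Finset.mul_sum]
  refine Finset.sum_congr rfl fun d _ => ?_
  by_cases hd : IsEdge G i j d
  · rw [if_pos hd, if_pos hd]
    have h2 : (orbit G.α d).card = 2 := by
      rw [orbit_card]
      have h1 : IsPeriodicPt G.α 2 d := G.alpha_alpha d
      have h3 := h1.minimalPeriod_dvd
      have h4 : minimalPeriod G.α d ≠ 1 := by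
        intro h'
        have h5 : G.α d = d := by
          have := iterate_minimalPeriod (f := G.α) (x := d)
          rwa [h'] at this
        exact G.alpha_ne d h5
      exact ((Nat.dvd_prime Nat.prime_two).1 h3).resolve_left h4
    rw [h2]
    norm_num
  · rw [if_neg hd, if_neg hd, mul_zero]

/-- The inequality for connected graphs. -/
theorem edges_ge (G : PlaneGraph) (hG : G.MinDegFive) : 180 ≤ 7 * e G 5 5 + 3 * e G 5 6 := by
  classical
  have hD := discharge G
  have hDr : (12 : ℝ) * ∑ d : G.D, (if G.deg d = 7 then 7 * (f5 d : ℝ) else 0) ≤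
      60 * ∑ d : G.D, (if G.deg d = 7 then (1 : ℝ) else 0) +
      7 * (2 * ∑ d : G.D, (if G.deg d = 5 then (f5 d : ℝ) else 0) + ∑ d : G.D, (big d : ℝ)) := by
    have h1 : ((12 * ∑ d : G.D, (if G.deg d = 7 then 7 * f5 d else 0) : ℕ) : ℝ) ≤
      ((60 * ∑ d : G.D, (if G.deg d = 7 then 1 else 0) +
      7 * (2 * ∑ d : G.D, (if G.deg d = 5 then f5 d else 0) + ∑ d : G.D, big d) : ℕ) : ℝ) := by
      exact_mod_cast hD
    push_cast at h1
    exact h1
  -- the large faces
  have hbig : ∑ d : G.D, (big d : ℝ) ≤ ∑ d : G.D, 120 * ((G.len d : ℝ) - 3) / G.len d := by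
    refine Finset.sum_le_sum fun d _ => ?_
    have h3 := len_ge_three hG d
    unfold big
    by_cases h : G.len d = 3
    · rw [if_pos h, h]
      norm_num
    · rw [if_neg h]
      have h4 : 4 ≤ G.len d := by omega
      have h4r : (4 : ℝ) ≤ G.len d := by exact_mod_cast h4
      rw [le_div_iff₀ (by linarith)]
      push_cast
      linarith
  have hf : ∀ d : G.D, (f5 d : ℝ) = if G.deg (G.α d) = 5 then 1 else 0 := by
    intro d
    unfold f5 z5
    by_cases h : G.deg (G.α d) = 5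
    · rw [if_pos h, if_pos (hl_zero.2 h)]
      norm_num
    · rw [if_neg h, if_neg (fun h' => h (hl_zero.1 h'))]
      norm_num
  -- Euler's formula
  have heuler : (720 : ℝ) = ∑ d : G.D, (if G.deg d = 5 then (12 : ℝ) else 0) -
      ∑ d : G.D, (if 7 ≤ G.deg d then 60 * ((G.deg d : ℝ) - 6) / G.deg d else 0) -
      ∑ d : G.D, 120 * ((G.len d : ℝ) - 3) / G.len d := by
    have h1 : (720 : ℝ) = ∑ d : G.D, (5 / 2) * (24 * ((6 : ℝ) - G.deg d) / G.deg d -
        48 * ((G.len d : ℝ) - 3) / G.len d) := by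
      rw [← Finset.mul_sum, euler_sum G]
      norm_num
    rw [h1, ← Finset.sum_sub_distrib, ← Finset.sum_sub_distrib]
    refine Finset.sum_congr rfl fun d _ => ?_
    have h5 := hG d
    have hb : (5 / 2) * (24 * ((6 : ℝ) - G.deg d) / G.deg d -
        48 * ((G.len d : ℝ) - 3) / G.len d) = 60 * ((6 : ℝ) - G.deg d) / G.deg d -
        120 * ((G.len d : ℝ) - 3) / G.len d := by ring
    rw [hb]
    congr 1
    by_cases h5' : G.deg d = 5
    · rw [if_pos h5', if_neg (by omega), h5']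
      norm_num
    · rw [if_neg h5', zero_sub]
      by_cases h7 : 7 ≤ G.deg d
      · rw [if_pos h7]
        ring
      · rw [if_neg h7]
        have h6 : G.deg d = 6 := by omega
        rw [h6]
        norm_num
  -- the edges at the vertices of degree 5
  have hswap : ∑ d : G.D, (if G.deg d = 5 ∧ 7 ≤ G.deg (G.α d) then (12 : ℝ) else 0) =
      ∑ d : G.D, (if 7 ≤ G.deg d ∧ G.deg (G.α d) = 5 then (12 : ℝ) else 0) := by
    rw [← Equiv.sum_comp G.α]
    refine Finset.sum_congr rfl fun d _ => ?_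
    rw [G.alpha_alpha]
    simp only [and_comm]
  have hsplit : ∑ d : G.D, (if G.deg d = 5 then (12 : ℝ) else 0) =
      12 * ∑ d : G.D, (if G.deg d = 5 ∧ G.deg (G.α d) = 5 then (1 : ℝ) else 0) +
      12 * ∑ d : G.D, (if G.deg d = 5 ∧ G.deg (G.α d) = 6 then (1 : ℝ) else 0) +
      ∑ d : G.D, (if G.deg d = 5 ∧ 7 ≤ G.deg (G.α d) then (12 : ℝ) else 0) := by
    rw [Finset.mul_sum, Finset.mul_sum, ← Finset.sum_add_distrib, ← Finset.sum_add_distrib]
    refine Finset.sum_congr rfl fun d _ => ?_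
    have h5 := hG (G.α d)
    by_cases h : G.deg d = 5
    · by_cases ha : G.deg (G.α d) = 5
      · simp [h, ha]
      · by_cases hb : G.deg (G.α d) = 6
        · simp [h, hb]
        · have hc : 7 ≤ G.deg (G.α d) := by omega
          simp [h, ha, hb, hc]
    · simp [h]
  -- the vertices of degree at least 7
  have hbd : ∑ d : G.D, (if 7 ≤ G.deg d ∧ G.deg (G.α d) = 5 then (12 : ℝ) else 0) -
      ∑ d : G.D, (if 7 ≤ G.deg d then 60 * ((G.deg d : ℝ) - 6) / G.deg d else 0) ≤
      12 * ∑ d : G.D, (if G.deg d = 7 then (f5 d : ℝ) else 0) -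
      (60 / 7) * ∑ d : G.D, (if G.deg d = 7 then (1 : ℝ) else 0) := by
    rw [Finset.mul_sum, Finset.mul_sum, ← Finset.sum_sub_distrib, ← Finset.sum_sub_distrib]
    refine Finset.sum_le_sum fun d _ => ?_
    rw [hf]
    by_cases h7 : G.deg d = 7
    · have h77 : 7 ≤ G.deg d := by omega
      by_cases h5 : G.deg (G.α d) = 5
      · rw [if_pos (⟨h77, h5⟩ : 7 ≤ G.deg d ∧ G.deg (G.α d) = 5), if_pos h77, if_pos h7,
          if_pos h7, if_pos h5, h7]
        norm_num
      · rw [if_neg (fun h' : 7 ≤ G.deg d ∧ G.deg (G.α d) = 5 => h5 h'.2), if_pos h77, if_pos h7,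
          if_pos h7, if_neg h5, h7]
        norm_num
    · rw [if_neg h7, if_neg h7]
      by_cases h8 : 7 ≤ G.deg d
      · rw [if_pos h8]
        have h8' : 8 ≤ G.deg d := by omega
        have h8r : (8 : ℝ) ≤ G.deg d := by exact_mod_cast h8'
        have hge : (12 : ℝ) ≤ 60 * ((G.deg d : ℝ) - 6) / G.deg d := by
          rw [le_div_iff₀ (by linarith)]
          linarith
        have hle : (if 7 ≤ G.deg d ∧ G.deg (G.α d) = 5 then (12 : ℝ) else 0) ≤ 12 := by
          split_ifs <;> norm_num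
        linarith
      · rw [if_neg h8, if_neg (fun h' => h8 h'.1)]
        norm_num
  have hf5 : ∑ d : G.D, (if G.deg d = 5 then (f5 d : ℝ) else 0) =
      ∑ d : G.D, (if G.deg d = 5 ∧ G.deg (G.α d) = 5 then (1 : ℝ) else 0) := by
    refine Finset.sum_congr rfl fun d _ => ?_
    rw [hf]
    by_cases h : G.deg d = 5 <;> by_cases h' : G.deg (G.α d) = 5 <;> simp [h, h']
  have h7 : ∑ d : G.D, (if G.deg d = 7 then 7 * (f5 d : ℝ) else 0) =
      7 * ∑ d : G.D, (if G.deg d = 7 then (f5 d : ℝ) else 0) := by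
    rw [Finset.mul_sum]
    refine Finset.sum_congr rfl fun d _ => ?_
    split_ifs <;> ring
  -- the numbers of edges
  have h55 : ∑ d : G.D, (if G.deg d = 5 ∧ G.deg (G.α d) = 5 then (1 : ℝ) else 0) =
      2 * e G 5 5 := by
    rw [← sum_edge]
    refine Finset.sum_congr rfl fun d _ => ?_
    unfold IsEdge
    simp only [or_self]
  have h56 : ∑ d : G.D, (if G.deg d = 5 ∧ G.deg (G.α d) = 6 then (1 : ℝ) else 0) = e G 5 6 := by
    have h1 : ∑ d : G.D, (if G.deg d = 6 ∧ G.deg (G.α d) = 5 then (1 : ℝ) else 0) =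
        ∑ d : G.D, (if G.deg d = 5 ∧ G.deg (G.α d) = 6 then (1 : ℝ) else 0) := by
      rw [← Equiv.sum_comp G.α]
      refine Finset.sum_congr rfl fun d _ => ?_
      rw [G.alpha_alpha]
      simp only [and_comm]
    have h2 : ∑ d : G.D, (if IsEdge G 5 6 d then (1 : ℝ) else 0) =
        ∑ d : G.D, (if G.deg d = 5 ∧ G.deg (G.α d) = 6 then (1 : ℝ) else 0) +
        ∑ d : G.D, (if G.deg d = 6 ∧ G.deg (G.α d) = 5 then (1 : ℝ) else 0) := by
      rw [← Finset.sum_add_distrib]
      refine Finset.sum_congr rfl fun d _ => ?_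
      unfold IsEdge
      by_cases ha : G.deg d = 5
      · simp [ha]
      · simp [ha]
    rw [sum_edge, h1] at h2
    linarith
  rw [hf5, h55, h7] at hDr
  rw [h55, h56, hswap] at hsplit
  have hfin : (180 : ℝ) ≤ 7 * e G 5 5 + 3 * e G 5 6 := by linarith
  exact_mod_cast hfin

end Work

/-! ### The example

A plane triangulation with 25 vertices (18 of degree 5, 1 of degree 6, 6 of degree 7); its 138
darts are numbered `0, …, 137`. -/

namespace Example

/-- The reversal (8 bits for each dart). -/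
def tA : ℕ := 0x60657d825a5459867e504f81876672764b454a7a7340757b676c3f393e706835346b717c8861302f64895b2b252a5f85835521205884511c53807f4c1b4e7977461a19497841151444746f6d3a100f3d6e360b386a69310a3363622c092e5e5c260807295d22052457561d041f524d484716031843421102133c3b0c010e37322d282700231e17120d06

/-- The rotation. -/
def tS : ℕ := 0x85898887868084838281797f7e7d7c7b7a74787776756f737271706a6e6d6c6b636968676665645e6261605f575d5c5b5a595852565554534d51504f4e484c4b4a4943474645443c4241403f3e3d373b3a393832363534332d31302f2e282c2b2a2923272625241e2221201f171d1c1b1a191812161514130d11100f0e060c0b0a090807000504030201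

/-- The inverse of the rotation. -/
def tI : ℕ := 0x888786858983828180847e7d7c7b7a797f77767574787271706f736d6c6b6a6e6867666564636961605f5e625c5b5a5958575d5554535256504f4e4d514b4a49484c464544434741403f3e3d3c423a3938373b3534333236302f2e2d312b2a29282c262524232721201f1e221c1b1a1918171d1514131216100f0e0d110b0a090807060c040302010005

/-- The starting vertices of the darts. -/
def tO : ℕ := 0x1818181818171717171716161616161616151515151514141414141313131313121212121212121111111111101010101010100f0f0f0f0f0e0e0e0e0e0d0d0d0d0d0c0c0c0c0c0b0b0b0b0b0b0b0a0a0a0a0a09090909090808080808070707070706060606060505050505040404040404040303030303020202020201010101010101000000000000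

/-- The entry `n` of a table. -/
def look (t n : ℕ) : ℕ := (t >>> (8 * n)) % 256

def a (n : ℕ) : ℕ := look tA n
def s (n : ℕ) : ℕ := look tS n
def r (n : ℕ) : ℕ := look tI n
def o (n : ℕ) : ℕ := look tO n

def chk1 (n : ℕ) : Bool :=
  decide (a n < 138) && decide (s n < 138) && decide (r n < 138) && (a (a n) == n) &&
    (a n != n) && (s (r n) == n) && (r (s n) == n) && (o (s n) == o n) && (o (a n) != o n) &&
    (n == 0 || decide (a n < n) || decide (r n < n)) && (s (a (s (a (s (a n))))) == n) &&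
    (s (a n) != n)

set_option maxRecDepth 100000 in
theorem chk1_all : ((List.range 138).all chk1) = true := by decide +kernel

lemma chk1_spec {n : ℕ} (hn : n < 138) : a n < 138 ∧ s n < 138 ∧ r n < 138 ∧ a (a n) = n ∧
    a n ≠ n ∧ s (r n) = n ∧ r (s n) = n ∧ o (s n) = o n ∧ o (a n) ≠ o n ∧
    (n = 0 ∨ a n < n ∨ r n < n) ∧ s (a (s (a (s (a n))))) = n ∧ s (a n) ≠ n := by
  have h := List.all_eq_true.1 chk1_all n (List.mem_range.2 hn)
  unfold chk1 at h
  simp only [Bool.and_eq_true, Bool.or_eq_true, decide_eq_true_eq, beq_iff_eq, bne_iff_ne] at h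
  obtain ⟨⟨⟨⟨⟨⟨⟨⟨⟨⟨⟨h1, h2⟩, h3⟩, h4⟩, h5⟩, h6⟩, h7⟩, h8⟩, h9⟩, h10⟩, h11⟩, h12⟩ := h
  exact ⟨h1, h2, h3, h4, h5, h6, h7, h8, h9, by tauto, h11, h12⟩

attribute [irreducible] look

def sig : Equiv.Perm (Fin 138) where
  toFun d := ⟨s d, (chk1_spec d.2).2.1⟩
  invFun d := ⟨r d, (chk1_spec d.2).2.2.1⟩
  left_inv d := Fin.ext (chk1_spec d.2).2.2.2.2.2.2.1
  right_inv d := Fin.ext (chk1_spec d.2).2.2.2.2.2.1

def alp : Equiv.Perm (Fin 138) where
  toFun d := ⟨a d, (chk1_spec d.2).1⟩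
  invFun d := ⟨a d, (chk1_spec d.2).1⟩
  left_inv d := Fin.ext (chk1_spec d.2).2.2.2.1
  right_inv d := Fin.ext (chk1_spec d.2).2.2.2.1

lemma sig_val (d : Fin 138) : (sig d).val = s d.val := rfl

/-- The degree. -/
def dg (n : ℕ) : ℕ :=
  let n5 := s (s (s (s (s n))))
  if n5 = n then 5 else if s n5 = n then 6 else 7

def chk2 (n : ℕ) : Bool :=
  let n1 := s n
  let n2 := s n1
  let n3 := s n2
  let n4 := s n3
  let n5 := s n4
  let n6 := s n5
  let n7 := s n6
  let w := o (a n)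
  (n1 != n) && (n2 != n) && (n3 != n) && (n4 != n) &&
  (o (a n1) != w) && (o (a n2) != w) && (o (a n3) != w) && (o (a n4) != w) &&
  (n5 == n || (o (a n5) != w && (n6 == n || (o (a n6) != w && n7 == n))))

set_option maxRecDepth 100000 in
theorem chk2_all : ((List.range 138).all chk2) = true := by decide +kernel

lemma iter_val (d : Fin 138) (k : ℕ) : (sig^[k] d).val = s^[k] d.val := by
  induction k with
  | zero => rfl
  | succ k ih => rw [Function.iterate_succ_apply', Function.iterate_succ_apply', sig_val, ih]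

/-- The degree of the example at each dart, and the heads of the darts around it. -/
lemma deg_spec (d : Fin 138) : minimalPeriod sig d = dg d.val ∧ 5 ≤ dg d.val ∧
    ∀ j, 0 < j → j < dg d.val → o (a (s^[j] d.val)) ≠ o (a d.val) := by
  have h := List.all_eq_true.1 chk2_all d.val (List.mem_range.2 d.2)
  have z1 : s^[1] d.val = s d.val := rfl
  have z2 : s^[2] d.val = s (s d.val) := rfl
  have z3 : s^[3] d.val = s (s (s d.val)) := rfl
  have z4 : s^[4] d.val = s (s (s (s d.val))) := rfl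
  have z5 : s^[5] d.val = s (s (s (s (s d.val)))) := rfl
  have z6 : s^[6] d.val = s (s (s (s (s (s d.val))))) := rfl
  have z7 : s^[7] d.val = s (s (s (s (s (s (s d.val)))))) := rfl
  unfold chk2 at h
  simp only [Bool.and_eq_true, Bool.or_eq_true, beq_iff_eq, bne_iff_ne] at h
  rw [← z7, ← z6, ← z5, ← z4, ← z3, ← z2, ← z1] at h
  have hper : ∀ k, s^[k] d.val = d.val → IsPeriodicPt sig k d := by
    intro k hk
    apply Fin.ext
    rw [iter_val]
    exact hk
  have hmin : ∀ k, 0 < k → s^[k] d.val = d.val → (∀ j, 0 < j → j < k → s^[j] d.val ≠ d.val) →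
      minimalPeriod sig d = k := by
    intro k hk hp hj
    apply le_antisymm
    · exact (hper k hp).minimalPeriod_le hk
    · by_contra hlt
      push Not at hlt
      have hpos : 0 < minimalPeriod sig d := (hper k hp).minimalPeriod_pos hk
      apply hj _ hpos hlt
      have h2 := iterate_minimalPeriod (f := sig) (x := d)
      have h3 := congrArg Fin.val h2
      rwa [iter_val] at h3
  obtain ⟨⟨⟨⟨⟨⟨⟨⟨h1, h2⟩, h3⟩, h4⟩, g1⟩, g2⟩, g3⟩, g4⟩, h5⟩ := h
  have hdg : dg d.val = if s^[5] d.val = d.val then 5 else if s^[6] d.val = d.val then 6 else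
      7 := rfl
  by_cases c5 : s^[5] d.val = d.val
  · rw [hdg, if_pos c5]
    refine ⟨hmin 5 (by norm_num) c5 ?_, le_rfl, ?_⟩
    · intro j hj hj2
      interval_cases j <;> assumption
    · intro j hj hj2
      interval_cases j <;> assumption
  · rw [hdg, if_neg c5]
    obtain ⟨g5, h6⟩ := h5.resolve_left c5
    by_cases c6 : s^[6] d.val = d.val
    · rw [if_pos c6]
      refine ⟨hmin 6 (by norm_num) c6 ?_, by norm_num, ?_⟩
      · intro j hj hj2
        interval_cases j <;> assumption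
      · intro j hj hj2
        interval_cases j <;> assumption
    · rw [if_neg c6]
      obtain ⟨g6, h7⟩ := h6.resolve_left c6
      refine ⟨hmin 7 (by norm_num) h7 ?_, by norm_num, ?_⟩
      · intro j hj hj2
        interval_cases j <;> assumption
      · intro j hj hj2
        interval_cases j <;> assumption

lemma o_sameCycle {d d' : Fin 138} (h : sig.SameCycle d d') : o d.val = o d'.val := by
  obtain ⟨n, hn⟩ := h.exists_nat_pow_eq
  rw [← hn]
  clear hn h
  induction n with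
  | zero => rfl
  | succ n ih =>
    rw [pow_succ', Equiv.Perm.mul_apply, sig_val, (chk1_spec ((sig ^ n) d).2).2.2.2.2.2.2.2.1]
    exact ih

lemma reach (n : ℕ) : ∀ hn : n < 138,
    ∃ g ∈ Subgroup.closure ({sig, alp} : Set (Equiv.Perm (Fin 138))), g 0 = ⟨n, hn⟩ := by
  induction n using Nat.strong_induction_on with
  | _ n ih =>
    intro hn
    rcases (chk1_spec hn).2.2.2.2.2.2.2.2.2.1 with h0 | h0 | h0
    · subst h0
      exact ⟨1, Subgroup.one_mem _, rfl⟩
    · obtain ⟨g, hg, hg0⟩ := ih (a n) h0 (chk1_spec hn).1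
      refine ⟨alp * g, Subgroup.mul_mem _ (Subgroup.subset_closure (by simp)) hg, ?_⟩
      rw [Equiv.Perm.mul_apply, hg0]
      exact Fin.ext (chk1_spec hn).2.2.2.1
    · obtain ⟨g, hg, hg0⟩ := ih (r n) h0 (chk1_spec hn).2.2.1
      refine ⟨sig * g, Subgroup.mul_mem _ (Subgroup.subset_closure (by simp)) hg, ?_⟩
      rw [Equiv.Perm.mul_apply, hg0]
      exact Fin.ext (chk1_spec hn).2.2.2.2.2.1

lemma phi_min (d : Fin 138) : minimalPeriod (sig * alp : Equiv.Perm (Fin 138)) d = 3 := by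
  have h1 : IsPeriodicPt (sig * alp : Equiv.Perm (Fin 138)) 3 d :=
    Fin.ext (chk1_spec d.2).2.2.2.2.2.2.2.2.2.2.1
  have h2 := h1.minimalPeriod_dvd
  have h3 : minimalPeriod (sig * alp : Equiv.Perm (Fin 138)) d ≠ 1 := by
    intro h
    have h4 : (sig * alp : Equiv.Perm (Fin 138)) d = d := by
      have := iterate_minimalPeriod (f := (sig * alp : Equiv.Perm (Fin 138))) (x := d)
      rwa [h] at this
    exact (chk1_spec d.2).2.2.2.2.2.2.2.2.2.2.2 (congrArg Fin.val h4)
  exact ((Nat.dvd_prime Nat.prime_three).1 h2).resolve_left h3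

set_option maxRecDepth 100000 in
theorem sum_dg : ∑ i ∈ Finset.range 138, 840 / dg i = 21000 := by decide +kernel

lemma numV : numOrbits sig (fun _ => True) = 25 := by
  have h := sum_inv_orbit sig (fun _ => True) (fun _ => Iff.rfl)
  simp only [if_true] at h
  have h1 : ∀ d : Fin 138, (1 : ℝ) / (orbit sig d).card = ((840 / dg d.val : ℕ) : ℝ) / 840 := by
    intro d
    rw [orbit_card, (deg_spec d).1]
    have h5 : dg d.val = 5 ∨ dg d.val = 6 ∨ dg d.val = 7 := by
      unfold dg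
      simp only
      split_ifs <;> simp
    rcases h5 with h5 | h5 | h5 <;> rw [h5] <;> norm_num
  rw [Finset.sum_congr rfl fun d _ => h1 d, ← Finset.sum_div, ← Nat.cast_sum,
    Fin.sum_univ_eq_sum_range (fun i => 840 / dg i) 138, sum_dg] at h
  have h2 : ((numOrbits sig (fun _ => True) : ℕ) : ℝ) = ((25 : ℕ) : ℝ) := by
    rw [← h]
    norm_num
  exact_mod_cast h2

lemma numF : numOrbits (sig * alp) (fun _ => True) = 46 := by
  have h := sum_inv_orbit (sig * alp) (fun _ => True) (fun _ => Iff.rfl)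
  simp only [if_true] at h
  have h1 : ∀ d : Fin 138, (1 : ℝ) / (orbit (sig * alp) d).card = 1 / 3 := by
    intro d
    rw [orbit_card, phi_min]
    norm_num
  rw [Finset.sum_congr rfl fun d _ => h1 d, Finset.sum_const, Finset.card_univ,
    Fintype.card_fin, nsmul_eq_mul] at h
  have h2 : ((numOrbits (sig * alp) (fun _ => True) : ℕ) : ℝ) = ((46 : ℕ) : ℝ) := by
    rw [← h]
    norm_num
  exact_mod_cast h2

/-- The example. -/
def G : PlaneGraph where
  D := Fin 138
  σ := sig
  α := alp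
  alpha_alpha d := Fin.ext (chk1_spec d.2).2.2.2.1
  alpha_ne d h := (chk1_spec d.2).2.2.2.2.1 (congrArg Fin.val h)
  connected d d' := by
    obtain ⟨g, hg, hg0⟩ := reach d.val d.2
    obtain ⟨g', hg', hg0'⟩ := reach d'.val d'.2
    refine ⟨g' * g⁻¹, Subgroup.mul_mem _ hg' (Subgroup.inv_mem _ hg), ?_⟩
    rw [Equiv.Perm.mul_apply, Equiv.Perm.inv_eq_iff_eq.2 hg0.symm]
    exact hg0'
  no_loop d h := (chk1_spec d.2).2.2.2.2.2.2.2.2.1 (o_sameCycle h).symm
  no_multi d d' h h' := by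
    obtain ⟨n, hn⟩ := h.exists_nat_pow_eq
    have hpos : 0 < minimalPeriod sig d := by
      rw [(deg_spec d).1]
      exact lt_of_lt_of_le (by norm_num) (deg_spec d).2.1
    have h1 : sig^[n % minimalPeriod sig d] d = d' := by
      rw [iterate_mod_minimalPeriod_eq, Equiv.Perm.iterate_eq_pow]
      exact hn
    have h2 : n % minimalPeriod sig d < dg d.val := by
      rw [← (deg_spec d).1]
      exact Nat.mod_lt _ hpos
    by_cases h0 : n % minimalPeriod sig d = 0
    · rw [h0] at h1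
      exact h1
    · exfalso
      apply (deg_spec d).2.2 _ (Nat.pos_of_ne_zero h0) h2
      rw [← iter_val, h1]
      exact (o_sameCycle h').symm
  euler := by
    rw [numV, numF, Fintype.card_fin]

lemma deg_eq (d : G.D) : G.deg d = dg (show Fin 138 from d).val := by
  unfold PlaneGraph.deg
  rw [orbit_card]
  exact (deg_spec d).1

theorem minDeg : G.MinDegFive := fun d => by
  rw [deg_eq]
  exact (deg_spec _).2.1

def ty (i j n : ℕ) : Bool :=
  (dg n == i && dg (a n) == j) || (dg n == j && dg (a n) == i)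

lemma isEdge_iff (i j : ℕ) (d : G.D) :
    IsEdge G i j d ↔ ty i j (show Fin 138 from d).val = true := by
  unfold IsEdge
  rw [deg_eq, deg_eq]
  have e1 : (show Fin 138 from G.α d).val = a (show Fin 138 from d).val := rfl
  rw [e1]
  unfold ty
  generalize dg (a (show Fin 138 from d).val) = y
  generalize dg (show Fin 138 from d).val = x
  clear e1
  simp only [Bool.or_eq_true, Bool.and_eq_true, beq_iff_eq]

lemma e_eq (i j m : ℕ)
    (h : ∑ n ∈ Finset.range 138, (if ty i j n = true then 1 else 0) = 2 * m) :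
    e G i j = m := by
  classical
  have h1 := Work.sum_edge G i j
  have h2 : ∑ d : G.D, (if IsEdge G i j d then (1 : ℝ) else 0) =
      ∑ d : Fin 138, (((if ty i j d.val = true then 1 else 0 : ℕ) : ℕ) : ℝ) := by
    refine Finset.sum_congr rfl fun d _ => ?_
    by_cases hd : IsEdge G i j d
    · rw [if_pos hd, if_pos ((isEdge_iff i j d).1 hd)]
      norm_num
    · rw [if_neg hd, if_neg (fun h' => hd ((isEdge_iff i j d).2 h'))]
      norm_num
  rw [h2, ← Nat.cast_sum,
    Fin.sum_univ_eq_sum_range (fun n => if ty i j n = true then 1 else 0) 138, h] at h1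
  have h3 : ((2 * m : ℕ) : ℝ) = ((2 * e G i j : ℕ) : ℝ) := by
    rw [h1]
    push_cast
    ring
  have h4 : 2 * m = 2 * e G i j := by exact_mod_cast h3
  omega

set_option maxRecDepth 100000 in
theorem e55 : e G 5 5 = 24 := e_eq 5 5 24 (by decide +kernel)

set_option maxRecDepth 100000 in
theorem e56 : e G 5 6 = 4 := e_eq 5 6 4 (by decide +kernel)

theorem exists_five : ∃ d, G.deg d = 5 := by
  have h : dg 13 = 5 := by decide +kernel
  exact ⟨(show G.D from (13 : Fin 138)), (deg_eq _).trans h⟩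

end Example

/-! ### The main theorem

A plane graph is given by the list of its connected components. -/

/-- The list `Gs` of the connected components of a plane graph of minimum degree (exactly) `5`. -/
def P5 (Gs : List PlaneGraph) : Prop :=
  (∀ G ∈ Gs, ∀ d : G.D, 5 ≤ G.deg d) ∧ ∃ G ∈ Gs, ∃ d : G.D, G.deg d = 5

/-- `e_{i,j}` of the plane graph with the components `Gs`. -/
noncomputable def eAll (Gs : List PlaneGraph) (i j : ℕ) : ℕ := (Gs.map fun G => e G i j).sum

/-- The number `a` is admissible. -/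
def Admissible (a : ℝ) : Prop :=
  ∀ Gs : List PlaneGraph, P5 Gs → 60 ≤ a * eAll Gs 5 5 + eAll Gs 5 6

theorem all_ge (Gs : List PlaneGraph) (h : ∀ G ∈ Gs, ∀ d : G.D, 5 ≤ G.deg d) :
    180 * Gs.length ≤ 7 * eAll Gs 5 5 + 3 * eAll Gs 5 6 := by
  induction Gs with
  | nil => exact Nat.zero_le _
  | cons G Gs ih =>
    have h1 := ih fun G' hG' => h G' (List.mem_cons_of_mem _ hG')
    have h2 := Work.edges_ge G (h G List.mem_cons_self)
    unfold eAll at h1 ⊢
    simp only [List.map_cons, List.sum_cons, List.length_cons]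
    omega

/-- **Main theorem.** (1) A connected plane graph (a triangulation with 25 vertices) of minimum
degree `5` with `e_{5,5} = 24` and `e_{5,6} = 4`. (2) `7 e_{5,5} + 3 e_{5,6} ≥ 180` for every plane
graph of minimum degree `5`. (3) `a* = 7/3`. -/
theorem result :
    (∃ G : PlaneGraph, (∀ d, 5 ≤ G.deg d) ∧ (∃ d, G.deg d = 5) ∧ e G 5 5 = 24 ∧ e G 5 6 = 4) ∧
    (∀ Gs : List PlaneGraph, P5 Gs → 180 ≤ 7 * eAll Gs 5 5 + 3 * eAll Gs 5 6) ∧
    IsLeast {a : ℝ | Admissible a} (7 / 3) := by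
  have hge : ∀ Gs : List PlaneGraph, P5 Gs → 180 ≤ 7 * eAll Gs 5 5 + 3 * eAll Gs 5 6 := by
    intro Gs h
    have h1 := all_ge Gs h.1
    have h2 : 0 < Gs.length := by
      obtain ⟨G, hG, -⟩ := h.2
      exact List.length_pos_of_mem hG
    omega
  refine ⟨⟨Example.G, Example.minDeg, Example.exists_five, Example.e55, Example.e56⟩, hge, ?_, ?_⟩
  · intro Gs h
    have h1 : (180 : ℝ) ≤ 7 * eAll Gs 5 5 + 3 * eAll Gs 5 6 := by exact_mod_cast hge Gs h
    linarith
  · intro a ha
    have h1 := ha [Example.G] ⟨fun G hG => by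
      rw [List.mem_singleton] at hG
      subst hG
      exact Example.minDeg, Example.G, List.mem_singleton.2 rfl, Example.exists_five⟩
    have e1 : eAll [Example.G] 5 5 = 24 := by
      simp [eAll, Example.e55]
    have e2 : eAll [Example.G] 5 6 = 4 := by
      simp [eAll, Example.e56]
    rw [e1, e2] at h1
    push_cast at h1
    linarith

end Pool.Agent.Results.MP_f6d334_co.LightEdges
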